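import Pool.Agent.Q187.VI.Int

/-! # The theorem for matrices -/

set_option autoImplicit false

namespace Pool.Agent.Q187.VI

open MeasureTheory Set Filter Topology
open Pool.Agent.Y273.VI (RCp Tm RCp_of det_cab Rp)
open Pool.Agent.TH937.ZC (gf)
open Pool.Agent.W360.MQ (cab)
open Pool.Agent.W523.MQ.OM (T)

theorem cab_re (A : Matrix (Fin 2) (Fin 2) ℝ) : (cab A).1.re = (A 0 0 + A 1 1) / 2 ∧
    (cab A).1.im = (A 1 0 - A 0 1) / 2 ∧ (cab A).2.re = (A 0 0 - A 1 1) / 2 ∧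
    (cab A).2.im = (A 1 0 + A 0 1) / 2 := by
  have hd : ∀ p q : ℝ, (((p : ℂ) + (q : ℂ) * Complex.I) / 2).re = p / 2 ∧
      (((p : ℂ) + (q : ℂ) * Complex.I) / 2).im = q / 2 := by
    intro p q
    have e : ((p : ℂ) + (q : ℂ) * Complex.I) / 2
        = ((p / 2 : ℝ) : ℂ) + ((q / 2 : ℝ) : ℂ) * Complex.I := by
      push_cast; ring
    rw [e]
    constructor <;> simp
  unfold cab
  exact ⟨(hd _ _).1, (hd _ _).2, (hd _ _).1, (hd _ _).2⟩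

open scoped Matrix.Norms.L2Operator in
theorem gl_main (h f : ℝ → ℝ) (W : Matrix (Fin 2) (Fin 2) ℝ → ℝ)
    (hW : ∀ A : Matrix (Fin 2) (Fin 2) ℝ, 0 < A.det → W A = h (‖A‖ ^ 2 / A.det) + f A.det)
    (hR : Rp W) (F₀ : Matrix (Fin 2) (Fin 2) ℝ) (h0 : 0 < F₀.det) {Ω : Set (Fin 2 → ℝ)}
    {ϑ : (Fin 2 → ℝ) → (Fin 2 → ℝ)} (ht : Tm Ω ϑ)
    (hpos : ∀ᵐ x ∂(volume.restrict Ω), 0 < (F₀ + LinearMap.toMatrix'
      ((fderiv ℝ ϑ x : (Fin 2 → ℝ) →L[ℝ] (Fin 2 → ℝ)) :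
        (Fin 2 → ℝ) →ₗ[ℝ] (Fin 2 → ℝ))).det)
    (hfin : ∫⁻ x in Ω, ENNReal.ofReal (W (F₀ + LinearMap.toMatrix'
      ((fderiv ℝ ϑ x : (Fin 2 → ℝ) →L[ℝ] (Fin 2 → ℝ)) :
        (Fin 2 → ℝ) →ₗ[ℝ] (Fin 2 → ℝ)))) ≠ ⊤) :
    IntegrableOn (fun x => W (F₀ + LinearMap.toMatrix'
      ((fderiv ℝ ϑ x : (Fin 2 → ℝ) →L[ℝ] (Fin 2 → ℝ)) :
        (Fin 2 → ℝ) →ₗ[ℝ] (Fin 2 → ℝ)))) Ω ∧
    W F₀ * (volume Ω).toReal ≤ ∫ x in Ω, W (F₀ + LinearMap.toMatrix'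
      ((fderiv ℝ ϑ x : (Fin 2 → ℝ) →L[ℝ] (Fin 2 → ℝ)) :
        (Fin 2 → ℝ) →ₗ[ℝ] (Fin 2 → ℝ))) := by
  have hW' : ∀ A : Matrix (Fin 2) (Fin 2) ℝ, 0 < A.det → W A = wv h f (cab A) := by
    intro A hA
    rw [hW A hA, val h f hA]
  have hRc : RCp (wv h f) := RCp_of hW' hR
  have hpos' : ∀ᵐ x ∂(volume.restrict Ω),
      ‖(T F₀ (fderiv ℝ ϑ x)).2‖ < ‖(T F₀ (fderiv ℝ ϑ x)).1‖ := by
    filter_upwards [hpos] with x hx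
    exact (det_cab _).1 hx
  have hev : (fun x => W (F₀ + LinearMap.toMatrix'
      ((fderiv ℝ ϑ x : (Fin 2 → ℝ) →L[ℝ] (Fin 2 → ℝ)) :
        (Fin 2 → ℝ) →ₗ[ℝ] (Fin 2 → ℝ)))) =ᵐ[volume.restrict Ω]
      fun x => wv h f (T F₀ (fderiv ℝ ϑ x)) := by
    filter_upwards [hpos] with x hx
    exact hW' _ hx
  have hfin' : ∫⁻ x in Ω, ENNReal.ofReal (wv h f (T F₀ (fderiv ℝ ϑ x))) ≠ ⊤ := by
    have e := lintegral_congr_ae (hev.fun_comp ENNReal.ofReal)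
    simp only [Function.comp] at e
    rw [← e]
    exact hfin
  obtain ⟨h1, h2⟩ := main_w hRc ht ((det_cab F₀).1 h0) hpos' hfin'
  refine ⟨h1.congr_fun_ae hev.symm, ?_⟩
  rw [integral_congr_ae hev, hW' F₀ h0]
  exact h2

open scoped Matrix.Norms.L2Operator in
theorem gl_poly (h f : ℝ → ℝ) (W : Matrix (Fin 2) (Fin 2) ℝ → ℝ)
    (hW : ∀ A : Matrix (Fin 2) (Fin 2) ℝ, 0 < A.det → W A = h (‖A‖ ^ 2 / A.det) + f A.det)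
    (hR : Rp W) (hf : ConvexOn ℝ (Ioi 0) f) (F₀ : Matrix (Fin 2) (Fin 2) ℝ) (h0 : 0 < F₀.det) :
    ∃ (B : Matrix (Fin 2) (Fin 2) ℝ) (c : ℝ), ∀ A : Matrix (Fin 2) (Fin 2) ℝ, 0 < A.det →
      W F₀ + ∑ i, ∑ j, B i j * (A i j - F₀ i j) + c * (A.det - F₀.det) ≤ W A := by
  have hW' : ∀ A : Matrix (Fin 2) (Fin 2) ℝ, 0 < A.det → W A = wv h f (cab A) := by
    intro A hA
    rw [hW A hA, val h f hA]
  have hRc : RCp (wv h f) := RCp_of hW' hR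
  obtain ⟨c, a, b, k, hc, ha, hb, hc0, hS⟩ := support hRc (F0 := cab F₀) ((det_cab F₀).1 h0)
  obtain ⟨p1, q1, h1⟩ := lin_norm (cab F₀).1
  obtain ⟨p2, q2, h2⟩ := lin_norm (cab F₀).2
  refine ⟨!![(b * p1 + a * p2) / 2, (-(b * q1) + a * q2) / 2;
    (b * q1 + a * q2) / 2, (b * p1 - a * p2) / 2], k, fun A hA => ?_⟩
  have h3 := hS (cab A) ((det_cab A).1 hA)
  rw [hc0 hf] at h3
  have h4 := mul_le_mul_of_nonneg_left (h1 (cab A).1) hb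
  have h5 := mul_le_mul_of_nonneg_left (h2 (cab A).2) ha
  obtain ⟨r1, r2, r3, r4⟩ := cab_re A
  obtain ⟨s1, s2, s3, s4⟩ := cab_re F₀
  rw [r1, r2, s1, s2] at h4
  rw [r3, r4, s3, s4] at h5
  have e1 : Dc (cab A) = A.det := (Pool.Agent.W74.MQ.OPN.main A).2.symm
  have e2 : Dc (cab F₀) = F₀.det := (Pool.Agent.W74.MQ.OPN.main F₀).2.symm
  rw [e1, e2] at h3
  rw [hW' A hA, hW' F₀ h0]
  simp only [Fin.sum_univ_two, Matrix.of_apply, Matrix.cons_val', Matrix.cons_val_zero,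
    Matrix.cons_val_one, Matrix.cons_val_fin_one]
  linarith

end Pool.Agent.Q187.VI
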