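import Pool.Agent.Q187.VI.Uni
import Pool.Agent.Y273.VI.Fin

/-! # Integration -/

set_option autoImplicit false

namespace Pool.Agent.Q187.VI

open MeasureTheory Set Filter Topology
open Pool.Agent.Y273.VI (RCp Tm T_meas pt_int pt_ql pt_bd RCp_of det_cab)
open Pool.Agent.TH937.ZC (gf QL QL_conv QL_det QL_add)
open Pool.Agent.W360.MQ (cab)
open Pool.Agent.W523.MQ.OM (T T_cont)

section

variable {h f : ℝ → ℝ}

theorem meas_w (hR : RCp (wv h f)) (F₀ : Matrix (Fin 2) (Fin 2) ℝ) {Ω : Set (Fin 2 → ℝ)}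
    {ϑ : (Fin 2 → ℝ) → (Fin 2 → ℝ)}
    (hpos : ∀ᵐ x ∂(volume.restrict Ω), ‖(T F₀ (fderiv ℝ ϑ x)).2‖ < ‖(T F₀ (fderiv ℝ ϑ x)).1‖) :
    AEStronglyMeasurable (fun x => wv h f (T F₀ (fderiv ℝ ϑ x))) (volume.restrict Ω) := by
  have hP : IsOpen {F : ℂ × ℂ | ‖F.2‖ < ‖F.1‖} := isOpen_lt (by fun_prop) (by fun_prop)
  -- the part of `f`
  have hc : ContinuousOn (fun F : ℂ × ℂ => f (Dc F)) {F : ℂ × ℂ | ‖F.2‖ < ‖F.1‖} := by
    intro F hF
    have hF' : 0 < Dc F := (Gl_iff F).1 hF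
    have h1 : ContinuousAt (fun F : ℂ × ℂ => Dc F) F := by unfold Dc; fun_prop
    exact ((f_cont hR hF').comp (f := fun F : ℂ × ℂ => Dc F) h1).continuousWithinAt
  have hmono : Monotone (fun t => h (max t 1)) := by
    intro s t hst
    exact h_mono hR (le_max_right _ _) (max_le_max hst le_rfl)
  have hK : Measurable (fun F : ℂ × ℂ => Kc F) := by
    unfold Kc
    exact Measurable.div (by fun_prop) (by fun_prop)
  classical
  have hm := ContinuousOn.measurable_piecewise hc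
    (continuousOn_const (c := (0 : ℝ)) (s := {F : ℂ × ℂ | ‖F.2‖ < ‖F.1‖}ᶜ)) hP.measurableSet
  have hm1 : Measurable (fun F : ℂ × ℂ => h (max (Kc F) 1)
      + ({F : ℂ × ℂ | ‖F.2‖ < ‖F.1‖}.piecewise (fun F : ℂ × ℂ => f (Dc F)) (fun _ => 0)) F) :=
    (hmono.measurable.comp hK).add hm
  have hm2 := (hm1.comp (T_meas F₀ ϑ)).aestronglyMeasurable (μ := volume.restrict Ω)
  refine hm2.congr ?_
  filter_upwards [hpos] with x hx
  have hx' : T F₀ (fderiv ℝ ϑ x) ∈ {F : ℂ × ℂ | ‖F.2‖ < ‖F.1‖} := hx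
  simp only [Function.comp]
  rw [Set.piecewise_eq_of_mem _ _ _ hx', max_eq_left (Kc_ge hx)]
  rfl

/-- the continuous part of the supporting function -/
theorem lin_ql {a b k : ℝ} (ha : 0 ≤ a) (hb : 0 ≤ b) (F0 : ℂ × ℂ) :
    Continuous (fun F : ℂ × ℂ => (a * ‖F.2‖ + b * ‖F.1‖) + k * (‖F.1‖ ^ 2 - ‖F.2‖ ^ 2)) ∧
      QL (fun F : ℂ × ℂ => (a * ‖F.2‖ + b * ‖F.1‖) + k * (‖F.1‖ ^ 2 - ‖F.2‖ ^ 2)) F0 := by
  refine ⟨by fun_prop, QL_add (by fun_prop) (by fun_prop) (QL_conv (by fun_prop) ?_ _) (QL_det k _)⟩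
  refine ⟨convex_univ, fun x _ y _ s t hs ht hst => ?_⟩
  have h1 : ‖(s • x + t • y).1‖ ≤ s * ‖x.1‖ + t * ‖y.1‖ := by
    refine (norm_add_le _ _).trans ?_
    simp only [Prod.smul_fst, norm_smul, Real.norm_eq_abs, abs_of_nonneg hs, abs_of_nonneg ht,
      le_refl]
  have h2 : ‖(s • x + t • y).2‖ ≤ s * ‖x.2‖ + t * ‖y.2‖ := by
    refine (norm_add_le _ _).trans ?_
    simp only [Prod.smul_snd, norm_smul, Real.norm_eq_abs, abs_of_nonneg hs, abs_of_nonneg ht,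
      le_refl]
  simp only [smul_eq_mul]
  nlinarith [mul_le_mul_of_nonneg_left h1 hb, mul_le_mul_of_nonneg_left h2 ha]

theorem main_w (hR : RCp (wv h f)) {F₀ : Matrix (Fin 2) (Fin 2) ℝ} {Ω : Set (Fin 2 → ℝ)}
    {ϑ : (Fin 2 → ℝ) → (Fin 2 → ℝ)} (ht : Tm Ω ϑ) (hF : ‖(cab F₀).2‖ < ‖(cab F₀).1‖)
    (hpos : ∀ᵐ x ∂(volume.restrict Ω), ‖(T F₀ (fderiv ℝ ϑ x)).2‖ < ‖(T F₀ (fderiv ℝ ϑ x)).1‖)
    (hfin : ∫⁻ x in Ω, ENNReal.ofReal (wv h f (T F₀ (fderiv ℝ ϑ x))) ≠ ⊤) :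
    IntegrableOn (fun x => wv h f (T F₀ (fderiv ℝ ϑ x))) Ω ∧
      wv h f (cab F₀) * (volume Ω).toReal ≤ ∫ x in Ω, wv h f (T F₀ (fderiv ℝ ϑ x)) := by
  have hm := meas_w hR F₀ hpos
  obtain ⟨c, a, b, k, hc, ha, hb, -, hS⟩ := support hR (F0 := cab F₀) hF
  set L : ℂ × ℂ → ℝ := fun F => (a * ‖F.2‖ + b * ‖F.1‖) + k * (‖F.1‖ ^ 2 - ‖F.2‖ ^ 2) with hL
  obtain ⟨hLc, hLq⟩ := lin_ql (k := k) ha hb (cab F₀)
  have i2 : IntegrableOn (fun x => L (T F₀ (fderiv ℝ ϑ x))) Ω := pt_int hLc F₀ ht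
  have l2 : L (cab F₀) * (volume Ω).toReal ≤ ∫ x in Ω, L (T F₀ (fderiv ℝ ϑ x)) :=
    pt_ql hLc F₀ hLq ht
  have hlow : ∀ᵐ x ∂(volume.restrict Ω), wv h f (cab F₀)
      + (c * gf aM bM (T F₀ (fderiv ℝ ϑ x)) - c * gf aM bM (cab F₀))
      + (L (T F₀ (fderiv ℝ ϑ x)) - L (cab F₀)) ≤ wv h f (T F₀ (fderiv ℝ ϑ x)) := by
    filter_upwards [hpos] with x hx
    have := hS _ hx
    have e : ∀ F : ℂ × ℂ, Dc F = ‖F.1‖ ^ 2 - ‖F.2‖ ^ 2 := fun F => rfl
    simp only [hL]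
    rw [e, e] at this
    linarith
  have hvol : volume Ω ≠ ⊤ := ht.fin.ne
  -- the part of the magic function
  obtain ⟨i1, l1⟩ : IntegrableOn (fun x => c * gf aM bM (T F₀ (fderiv ℝ ϑ x))) Ω ∧
      c * gf aM bM (cab F₀) * (volume Ω).toReal
        ≤ ∫ x in Ω, c * gf aM bM (T F₀ (fderiv ℝ ϑ x)) := by
    rcases eq_or_lt_of_le hc with h0 | h0
    · rw [← h0]
      simp only [zero_mul]
      exact ⟨integrableOn_zero, by simp⟩
    obtain ⟨C, hC⟩ := pt_bd hLc F₀ ht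
    set C' : ℝ := C + |L (cab F₀)| + |c * gf aM bM (cab F₀)| + |wv h f (cab F₀)| with hC'
    have hbound : ∀ᵐ x ∂(volume.restrict Ω), ENNReal.ofReal (gf aM bM (T F₀ (fderiv ℝ ϑ x)))
        ≤ ENNReal.ofReal (1 / c) * ENNReal.ofReal (wv h f (T F₀ (fderiv ℝ ϑ x)))
          + ENNReal.ofReal (C' / c) := by
      filter_upwards [hlow] with x hx
      have h1 := (abs_le.1 (hC x)).1
      have h2 := le_abs_self (L (cab F₀))
      have h3 := le_abs_self (c * gf aM bM (cab F₀))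
      have h4 := neg_abs_le (wv h f (cab F₀))
      have h5 : gf aM bM (T F₀ (fderiv ℝ ϑ x))
          ≤ 1 / c * wv h f (T F₀ (fderiv ℝ ϑ x)) + C' / c := by
        have e : 1 / c * wv h f (T F₀ (fderiv ℝ ϑ x)) + C' / c
            = (wv h f (T F₀ (fderiv ℝ ϑ x)) + C') / c := by ring
        rw [e, le_div_iff₀ h0]
        linarith
      refine (ENNReal.ofReal_le_ofReal h5).trans (ENNReal.ofReal_add_le.trans ?_)
      rw [ENNReal.ofReal_mul (by positivity)]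
    have hfinM : ∫⁻ x in Ω, ENNReal.ofReal (gf aM bM (T F₀ (fderiv ℝ ϑ x))) ≠ ⊤ := by
      refine ne_top_of_le_ne_top ?_ (lintegral_mono_ae hbound)
      rw [lintegral_add_right _ measurable_const, lintegral_const_mul' _ _ ENNReal.ofReal_ne_top,
        lintegral_const, Measure.restrict_apply_univ]
      exact ENNReal.add_ne_top.2 ⟨ENNReal.mul_ne_top ENNReal.ofReal_ne_top hfin,
        ENNReal.mul_ne_top ENNReal.ofReal_ne_top hvol⟩
    obtain ⟨j1, j2⟩ := magic ht hF hpos hfinM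
    refine ⟨j1.const_mul c, ?_⟩
    rw [integral_const_mul, mul_assoc]
    exact mul_le_mul_of_nonneg_left j2 hc
  -- the minorant
  have hvolr : IntegrableOn (fun _ : Fin 2 → ℝ => (1 : ℝ)) Ω := integrableOn_const hvol
  set Gx : (Fin 2 → ℝ) → ℝ := fun x => wv h f (cab F₀)
      + (c * gf aM bM (T F₀ (fderiv ℝ ϑ x)) - c * gf aM bM (cab F₀))
      + (L (T F₀ (fderiv ℝ ϑ x)) - L (cab F₀)) with hGx
  have ic : ∀ r : ℝ, IntegrableOn (fun _ : Fin 2 → ℝ => r) Ω := fun r => integrableOn_const hvol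
  have iG : IntegrableOn Gx Ω :=
    ((ic _).add (i1.sub (ic _))).add (i2.sub (ic _))
  have vG : ∫ x in Ω, Gx x = wv h f (cab F₀) * (volume Ω).toReal
      + (∫ x in Ω, c * gf aM bM (T F₀ (fderiv ℝ ϑ x)))
      - c * gf aM bM (cab F₀) * (volume Ω).toReal
      + (∫ x in Ω, L (T F₀ (fderiv ℝ ϑ x))) - L (cab F₀) * (volume Ω).toReal := by
    have cst : ∀ r : ℝ, ∫ _ in Ω, r ∂(volume : Measure (Fin 2 → ℝ)) = r * (volume Ω).toReal := by
      intro r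
      rw [setIntegral_const, smul_eq_mul, mul_comm]; rfl
    have e1 : ∫ x in Ω, Gx x = (∫ x in Ω, (wv h f (cab F₀)
        + (c * gf aM bM (T F₀ (fderiv ℝ ϑ x)) - c * gf aM bM (cab F₀))))
        + ∫ x in Ω, (L (T F₀ (fderiv ℝ ϑ x)) - L (cab F₀)) :=
      integral_add (f := fun x => wv h f (cab F₀)
        + (c * gf aM bM (T F₀ (fderiv ℝ ϑ x)) - c * gf aM bM (cab F₀)))
        (g := fun x => L (T F₀ (fderiv ℝ ϑ x)) - L (cab F₀))
        ((ic _).add (i1.sub (ic _))) (i2.sub (ic _))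
    have e2 : (∫ x in Ω, (wv h f (cab F₀)
        + (c * gf aM bM (T F₀ (fderiv ℝ ϑ x)) - c * gf aM bM (cab F₀))))
        = (∫ _ in Ω, wv h f (cab F₀)) + ∫ x in Ω, (c * gf aM bM (T F₀ (fderiv ℝ ϑ x))
          - c * gf aM bM (cab F₀)) :=
      integral_add (f := fun _ => wv h f (cab F₀))
        (g := fun x => c * gf aM bM (T F₀ (fderiv ℝ ϑ x)) - c * gf aM bM (cab F₀))
        (ic _) (i1.sub (ic _))
    have e3 : (∫ x in Ω, (c * gf aM bM (T F₀ (fderiv ℝ ϑ x)) - c * gf aM bM (cab F₀)))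
        = (∫ x in Ω, c * gf aM bM (T F₀ (fderiv ℝ ϑ x)))
          - ∫ _ in Ω, c * gf aM bM (cab F₀) :=
      integral_sub (f := fun x => c * gf aM bM (T F₀ (fderiv ℝ ϑ x)))
        (g := fun _ => c * gf aM bM (cab F₀)) i1 (ic _)
    have e4 : (∫ x in Ω, (L (T F₀ (fderiv ℝ ϑ x)) - L (cab F₀)))
        = (∫ x in Ω, L (T F₀ (fderiv ℝ ϑ x))) - ∫ _ in Ω, L (cab F₀) :=
      integral_sub (f := fun x => L (T F₀ (fderiv ℝ ϑ x)))
        (g := fun _ => L (cab F₀)) i2 (ic _)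
    rw [e1, e2, e3, e4, cst, cst, cst]
    ring
  have hWp : IntegrableOn (fun x => max (wv h f (T F₀ (fderiv ℝ ϑ x))) 0) Ω := by
    refine ⟨(hm.aemeasurable.max aemeasurable_const).aestronglyMeasurable, ?_⟩
    rw [HasFiniteIntegral]
    refine lt_of_le_of_lt (lintegral_mono fun x => ?_) (lt_top_iff_ne_top.2 hfin)
    rw [Real.enorm_eq_ofReal (le_max_right _ _)]
    rcases le_total 0 (wv h f (T F₀ (fderiv ℝ ϑ x))) with h1 | h1
    · rw [max_eq_left h1]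
    · rw [max_eq_right h1]; simp
  have hWi : IntegrableOn (fun x => wv h f (T F₀ (fderiv ℝ ϑ x))) Ω := by
    refine Integrable.mono' (hWp.add iG.abs) hm ?_
    filter_upwards [hlow] with x hx
    rw [Real.norm_eq_abs, Pi.add_apply]
    have hx' : Gx x ≤ wv h f (T F₀ (fderiv ℝ ϑ x)) := hx
    rcases le_total 0 (wv h f (T F₀ (fderiv ℝ ϑ x))) with h1 | h1
    · rw [abs_of_nonneg h1]
      have := le_max_left (wv h f (T F₀ (fderiv ℝ ϑ x))) 0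
      have := abs_nonneg (Gx x)
      linarith
    · rw [abs_of_nonpos h1]
      have := le_max_right (wv h f (T F₀ (fderiv ℝ ϑ x))) 0
      have := neg_abs_le (Gx x)
      linarith
  refine ⟨hWi, ?_⟩
  have := integral_mono_ae iG hWi hlow
  rw [vG] at this
  linarith

end

/-- an affine minorant of the norm -/
theorem lin_norm (z0 : ℂ) : ∃ p q : ℝ, ∀ z : ℂ,
    ‖z0‖ + p * (z.re - z0.re) + q * (z.im - z0.im) ≤ ‖z‖ := by
  by_cases h0 : z0 = 0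
  · refine ⟨0, 0, fun z => ?_⟩
    rw [h0]; simp
  have hn : 0 < ‖z0‖ := norm_pos_iff.2 h0
  refine ⟨z0.re / ‖z0‖, z0.im / ‖z0‖, fun z => ?_⟩
  have h1 : ‖z0‖ ^ 2 = z0.re * z0.re + z0.im * z0.im := by
    rw [← Complex.normSq_eq_norm_sq, Complex.normSq_apply]
  have h2 : z0.re * z.re + z0.im * z.im ≤ ‖z0‖ * ‖z‖ := by
    have h3 : (z0.re * z.re + z0.im * z.im) = ((starRingEnd ℂ) z0 * z).re := by
      simp
    rw [h3]
    refine (Complex.re_le_norm _).trans ?_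
    rw [norm_mul, RCLike.norm_conj]
  have e : ‖z0‖ + z0.re / ‖z0‖ * (z.re - z0.re) + z0.im / ‖z0‖ * (z.im - z0.im)
      = (z0.re * z.re + z0.im * z.im) / ‖z0‖ := by
    field_simp
    linear_combination h1
  rw [e, div_le_iff₀ hn]
  linarith

open scoped Matrix.Norms.L2Operator in
theorem val (h f : ℝ → ℝ) {A : Matrix (Fin 2) (Fin 2) ℝ} (hA : 0 < A.det) :
    h (‖A‖ ^ 2 / A.det) + f A.det = wv h f (cab A) := by
  obtain ⟨h1, h2⟩ := Pool.Agent.W74.MQ.OPN.main A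
  have hgl := (det_cab A).1 hA
  have hv : 0 < ‖(cab A).1‖ - ‖(cab A).2‖ := sub_pos.2 hgl
  have hs : 0 < ‖(cab A).1‖ + ‖(cab A).2‖ := by linarith [norm_nonneg (cab A).2]
  have e1 : ‖A‖ ^ 2 / A.det = Kc (cab A) := by
    rw [h1, h2]
    unfold Kc
    have e : ‖(cab A).1‖ ^ 2 - ‖(cab A).2‖ ^ 2
        = (‖(cab A).1‖ + ‖(cab A).2‖) * (‖(cab A).1‖ - ‖(cab A).2‖) := by ring
    rw [e]
    field_simp
  unfold wv
  rw [e1]
  congr 2

end Pool.Agent.Q187.VI
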