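import Pool.Agent.Q187.VI.Sup

/-! # The critical constant -/

set_option autoImplicit false

namespace Pool.Agent.Q187.VI

open Set Filter Topology
open Pool.Agent.Y273.VI (RCp)

section

variable {h f : ℝ → ℝ}

noncomputable def Fd : ℂ × ℂ := (((1 / 2 : ℝ) : ℂ), ((-1 / 2 : ℝ) : ℂ))
noncomputable def Hd : ℂ × ℂ := (((1 / 2 : ℝ) : ℂ), ((1 / 2 : ℝ) : ℂ))

theorem Fd_line (τ : ℝ) :
    Fd + τ • Hd = ((((1 + τ) / 2 : ℝ) : ℂ), (((τ - 1) / 2 : ℝ) : ℂ)) := by
  unfold Fd Hd
  refine Prod.ext ?_ ?_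
  · simp only [Prod.fst_add, Prod.smul_fst, Complex.real_smul]
    push_cast; ring
  · simp only [Prod.snd_add, Prod.smul_snd, Complex.real_smul]
    push_cast; ring

theorem Fd_D (τ : ℝ) : Dc (Fd + τ • Hd) = τ := by
  rw [Fd_line]
  unfold Dc
  simp only [Complex.norm_real, Real.norm_eq_abs, sq_abs]
  ring

theorem Fd_D0 : Dc Fd = 0 := by
  have := Fd_D 0
  rwa [zero_smul, add_zero] at this

theorem Fd_K {τ : ℝ} (hτ : 1 ≤ τ) : Kc (Fd + τ • Hd) = τ := by
  rw [Fd_line]
  unfold Kc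
  simp only [Complex.norm_real, Real.norm_eq_abs]
  rw [abs_of_nonneg (by linarith), abs_of_nonneg (by linarith)]
  have e1 : (1 + τ) / 2 + (τ - 1) / 2 = τ := by ring
  have e2 : (1 + τ) / 2 - (τ - 1) / 2 = 1 := by ring
  rw [e1, e2, div_one]

theorem Hd_n : ‖Hd.1‖ = ‖Hd.2‖ := rfl

/-- convexity on all rank-one lines of `h (K) - c log det` -/
def LC (h : ℝ → ℝ) (c : ℝ) : Prop := ∀ (F H : ℂ × ℂ) (κ : ℝ), ‖H.1‖ = ‖H.2‖ →
  (∀ τ : ℝ, Dc (F + τ • H) = Dc F + κ * τ) →
    ConvexOn ℝ {τ : ℝ | 0 < Dc F + κ * τ}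
      (fun τ => h (Kc (F + τ • H)) - c * Real.log (Dc F + κ * τ))

theorem restr {g : ℝ → ℝ} (hc : ConvexOn ℝ {τ : ℝ | 0 < Dc Fd + 1 * τ}
      (fun τ => h (Kc (Fd + τ • Hd)) + g (Dc Fd + 1 * τ))) :
    ConvexOn ℝ (Ici 1) (fun σ => h σ + g σ) := by
  refine ⟨convex_Ici 1, fun x hx y hy a b ha hb hab => ?_⟩
  have hx' : (1 : ℝ) ≤ x := hx
  have hy' : (1 : ℝ) ≤ y := hy
  have hz' : (1 : ℝ) ≤ a • x + b • y := (convex_Ici (1 : ℝ)) hx hy ha hb hab
  have h1 : x ∈ {τ : ℝ | 0 < Dc Fd + 1 * τ} := by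
    show 0 < Dc Fd + 1 * x
    rw [Fd_D0]; linarith
  have h2 : y ∈ {τ : ℝ | 0 < Dc Fd + 1 * τ} := by
    show 0 < Dc Fd + 1 * y
    rw [Fd_D0]; linarith
  have := hc.2 h1 h2 ha hb hab
  simp only [Fd_D0, Fd_K hx', Fd_K hy', Fd_K hz', zero_add, one_mul] at this
  exact this

theorem LC.G {c : ℝ} (hL : LC h c) : ConvexOn ℝ (Ici 1) (fun σ => h σ - c * Real.log σ) := by
  have h1 := hL Fd Hd 1 Hd_n (fun τ => by rw [Fd_D, Fd_D0]; ring)
  have h2 := restr (h := h) (g := fun x => -(c * Real.log x)) (by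
    convert h1 using 2
    ring)
  convert h2 using 2
  ring

theorem hl_conv (hR : RCp (wv h f)) {l : ℝ} (hl : 0 < l) :
    ConvexOn ℝ (Ici 1) (fun σ => h σ + f (l * σ)) :=
  restr (g := fun x => f (l * x))
    (line_conv hR Hd_n (κ := 1) (fun τ => by rw [Fd_D, Fd_D0]; ring) hl)

/-- continuity of `f` -/
theorem f_cont (hR : RCp (wv h f)) {z : ℝ} (hz : 0 < z) : ContinuousAt f z := by
  -- continuity of the convex functions
  have hC : ∀ l, 0 < l → ∀ σ, 1 < σ → ContinuousAt (fun σ => h σ + f (l * σ)) σ := by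
    intro l hl σ hσ
    have h1 : ConvexOn ℝ (Ioi 1) (fun σ => h σ + f (l * σ)) :=
      (hl_conv hR hl).subset Ioi_subset_Ici_self (convex_Ioi 1)
    exact (h1.continuousOn isOpen_Ioi).continuousAt (Ioi_mem_nhds hσ)
  -- a continuity point of `h`
  obtain ⟨zs, hzs1, hzs⟩ : ∃ zs : ℝ, 1 < zs ∧ ContinuousAt h zs := by
    set hm : ℝ → ℝ := fun t => h (max t 1) with hhm
    have hmono : Monotone hm := by
      intro s t hst
      exact h_mono hR (le_max_right _ _) (max_le_max hst le_rfl)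
    have hcount := hmono.countable_not_continuousAt
    have hun : ¬ (Ioi (1 : ℝ)).Countable := by
      intro hcn
      have := hcn.le_aleph0
      rw [Cardinal.mk_Ioi_real] at this
      exact absurd this (not_le.2 Cardinal.aleph0_lt_continuum)
    have hns : ¬ (Ioi (1 : ℝ)) ⊆ {x | ¬ContinuousAt hm x} := fun hs => hun (hcount.mono hs)
    rw [Set.not_subset] at hns
    obtain ⟨zs, h1, h2⟩ := hns
    have h2' : ContinuousAt hm zs := by
      by_contra hcon
      exact h2 hcon
    refine ⟨zs, h1, h2'.congr ?_⟩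
    filter_upwards [Ioi_mem_nhds h1] with t ht
    simp only [hhm]
    rw [max_eq_left (le_of_lt ht)]
  have hfz : ContinuousAt f zs := by
    have h1 := (hC 1 one_pos zs hzs1).sub hzs
    refine h1.congr (Eventually.of_forall fun t => ?_)
    simp
  -- continuity of `h`
  have hh : ContinuousAt h 2 := by
    have hl : 0 < zs / 2 := by linarith
    have h1 := hC (zs / 2) hl 2 (by norm_num)
    have h2 : ContinuousAt (fun σ => f (zs / 2 * σ)) 2 := by
      have : ContinuousAt f (zs / 2 * 2) := by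
        rw [show zs / 2 * 2 = zs by ring]; exact hfz
      exact this.comp (f := fun σ : ℝ => zs / 2 * σ) (by fun_prop)
    refine (h1.sub h2).congr (Eventually.of_forall fun t => ?_)
    simp
  have h1 := hC (z / 2) (by linarith) 2 (by norm_num)
  have h2 : ContinuousAt (fun σ => f (z / 2 * σ)) 2 := by
    refine (h1.sub hh).congr (Eventually.of_forall fun t => ?_)
    simp
  have h3 : ContinuousAt (fun w : ℝ => f (z / 2 * (w / (z / 2)))) z := by
    have h4 : ContinuousAt (fun σ => f (z / 2 * σ)) (z / (z / 2)) := by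
      rw [show z / (z / 2) = 2 by field_simp]; exact h2
    exact h4.comp (f := fun w : ℝ => w / (z / 2)) (by fun_prop)
  refine h3.congr (Eventually.of_forall fun w => ?_)
  have : z / 2 * (w / (z / 2)) = w := by field_simp
  simp only [this]

/-- the dichotomy -/
theorem dich (hR : RCp (wv h f)) (c : ℝ) :
    ConvexOn ℝ (Ioi 0) (fun z => f z + c * Real.log z) ∨ LC h c := by
  by_cases hcv : ConvexOn ℝ (Ioi 0) (fun z => f z + c * Real.log z)
  · exact Or.inl hcv
  right
  -- the point of failure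
  have hcont : ContinuousOn (fun z => f z + c * Real.log z) (Ioi 0) := by
    intro z hz
    have hz' : 0 < z := hz
    exact ((f_cont hR hz').add (continuousAt_const.mul
      (Real.continuousAt_log hz'.ne'))).continuousWithinAt
  have hfail : ∃ z, 0 < z ∧ ∀ᶠ ε in 𝓝[>] (0 : ℝ),
      f (z + ε) + f (z - ε) - 2 * f z
        + c * (Real.log (z + ε) + Real.log (z - ε) - 2 * Real.log z) < 0 := by
    by_contra hcon
    push Not at hcon
    refine hcv (schwarz (convex_Ioi 0) hcont fun z hz δ hδ => ?_)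
    refine (hcon z hz).mono fun ε hε => ?_
    have : 0 ≤ δ * ε ^ 2 := by positivity
    linarith
  obtain ⟨z, hz, hz2⟩ := hfail
  intro F H κ hH hκ
  set D0 := Dc F with hD0
  set A : ℝ → ℝ := fun τ => h (Kc (F + τ • H)) with hA
  have hcl : ∀ l, 0 < l → ConvexOn ℝ {τ : ℝ | 0 < D0 + κ * τ}
      (fun τ => A τ + f (l * (D0 + κ * τ))) := fun l hl => line_conv hR hH hκ hl
  set J : Set ℝ := {τ : ℝ | 0 < D0 + κ * τ} with hJ
  have hJo : IsOpen J := isOpen_lt continuous_const (by fun_prop)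
  have hJc : Convex ℝ J := (hcl 1 one_pos).1
  rcases eq_or_ne κ 0 with hκ0 | hκ0
  · refine ⟨hJc, fun x hx y hy a b ha hb hab => ?_⟩
    have := (hcl 1 one_pos).2 hx hy ha hb hab
    simp only [hκ0, zero_mul, add_zero, smul_eq_mul] at this ⊢
    have hab' : a = 1 - b := by linarith
    rw [hab'] at this ⊢
    simp only [hA] at this
    linarith
  have hAc : ContinuousOn A J := by
    have h1 := (hcl 1 one_pos).continuousOn hJo
    have h2 : ContinuousOn (fun τ => f (1 * (D0 + κ * τ))) J := by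
      intro τ hτ
      have hτ' : 0 < D0 + κ * τ := hτ
      have h3 : ContinuousAt f (1 * (D0 + κ * τ)) := f_cont hR (by linarith)
      exact (h3.comp (f := fun τ : ℝ => 1 * (D0 + κ * τ)) (by fun_prop)).continuousWithinAt
    refine (h1.sub h2).congr fun τ _ => ?_
    simp
  refine schwarz hJc ?_ ?_
  · intro τ hτ
    have hτ' : 0 < D0 + κ * τ := hτ
    refine (hAc τ hτ).sub ?_
    have : ContinuousAt (fun τ : ℝ => c * Real.log (D0 + κ * τ)) τ :=
      continuousAt_const.mul ((by fun_prop : ContinuousAt (fun τ : ℝ => D0 + κ * τ) τ).log hτ'.ne')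
    exact this.continuousWithinAt
  · intro τ hτ δ hδ
    have hτ' : 0 < D0 + κ * τ := hτ
    set D : ℝ := D0 + κ * τ with hD
    set l : ℝ := z / D with hl
    have hl0 : 0 < l := by positivity
    have hlD : l * D = z := by rw [hl]; field_simp
    -- the scaled increments
    have ht : Tendsto (fun ε : ℝ => l * |κ| * ε) (𝓝[>] 0) (𝓝[>] 0) := by
      refine tendsto_nhdsWithin_iff.2 ⟨?_, ?_⟩
      · have : Tendsto (fun ε : ℝ => l * |κ| * ε) (𝓝 0) (𝓝 (l * |κ| * 0)) :=
          (by fun_prop : Continuous fun ε : ℝ => l * |κ| * ε).tendsto 0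
        rw [mul_zero] at this
        exact this.mono_left nhdsWithin_le_nhds
      · filter_upwards [self_mem_nhdsWithin] with ε hε
        have hε' : 0 < ε := hε
        have := abs_pos.2 hκ0
        exact mem_Ioi.2 (by positivity)
    have h3 := ht.eventually hz2
    have h4 : ∀ᶠ ε in 𝓝[>] (0 : ℝ), ε ∈ Ioo 0 (D / |κ|) :=
      Ioo_mem_nhdsGT (div_pos hτ' (abs_pos.2 hκ0))
    refine Eventually.frequently ?_
    filter_upwards [h3, h4] with ε h5 h6
    have hε0 : 0 < ε := h6.1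
    have hεD : |κ| * ε < D := by
      have := h6.2
      rw [lt_div_iff₀ (abs_pos.2 hκ0)] at this
      linarith
    have hp : 0 < D + κ * ε := by
      have := neg_abs_le κ
      nlinarith
    have hm : 0 < D - κ * ε := by
      have := le_abs_self κ
      nlinarith
    have ep : D0 + κ * (τ + ε) = D + κ * ε := by rw [hD]; ring
    have em : D0 + κ * (τ - ε) = D - κ * ε := by rw [hD]; ring
    have hcv := (hcl l hl0).2 (show τ + ε ∈ J by show 0 < D0 + κ * (τ + ε); rw [ep]; exact hp)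
      (show τ - ε ∈ J by show 0 < D0 + κ * (τ - ε); rw [em]; exact hm)
      (by norm_num : (0 : ℝ) ≤ 1 / 2) (by norm_num : (0 : ℝ) ≤ 1 / 2) (by norm_num)
    simp only [smul_eq_mul] at hcv
    have e4 : 1 / 2 * (τ + ε) + 1 / 2 * (τ - ε) = τ := by ring
    rw [e4, ep, em] at hcv
    have e5 : l * (D0 + κ * τ) = z := hlD
    rw [e5] at hcv
    -- symmetric in the sign of `κ`
    have key : f (l * (D + κ * ε)) + f (l * (D - κ * ε))
          + c * (Real.log (D + κ * ε) + Real.log (D - κ * ε) - 2 * Real.log D)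
          - 2 * f z < 0 := by
      have lg : ∀ u, 0 < u → Real.log (l * u) = Real.log l + Real.log u :=
        fun u hu => Real.log_mul hl0.ne' hu.ne'
      rcases abs_choice κ with hs | hs
      · have a1 : z + l * |κ| * ε = l * (D + κ * ε) := by rw [hs, ← hlD]; ring
        have a2 : z - l * |κ| * ε = l * (D - κ * ε) := by rw [hs, ← hlD]; ring
        rw [a1, a2, lg _ hp, lg _ hm] at h5
        have a3 : Real.log z = Real.log l + Real.log D := by rw [← hlD, lg _ hτ']
        rw [a3] at h5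
        linarith
      · have a1 : z + l * |κ| * ε = l * (D - κ * ε) := by rw [hs, ← hlD]; ring
        have a2 : z - l * |κ| * ε = l * (D + κ * ε) := by rw [hs, ← hlD]; ring
        rw [a1, a2, lg _ hp, lg _ hm] at h5
        have a3 : Real.log z = Real.log l + Real.log D := by rw [← hlD, lg _ hτ']
        rw [a3] at h5
        linarith
    have hδ' : 0 ≤ δ * ε ^ 2 := by positivity
    show -(δ * ε ^ 2) ≤ A (τ + ε) - c * Real.log (D0 + κ * (τ + ε))
      + (A (τ - ε) - c * Real.log (D0 + κ * (τ - ε))) - 2 * (A τ - c * Real.log (D0 + κ * τ))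
    rw [ep, em]
    linarith

/-- the critical constant -/
theorem crit (hR : RCp (wv h f)) : ∃ c : ℝ,
    ConvexOn ℝ (Ioi 0) (fun z => f z + c * Real.log z) ∧ LC h c ∧
      (ConvexOn ℝ (Ioi 0) f → 0 ≤ c) := by
  have hl : 0 < 2 * Real.log 2 - Real.log 3 := by
    have e : 2 * Real.log 2 = Real.log 4 := by
      rw [show (4 : ℝ) = 2 ^ 2 by norm_num, Real.log_pow]; norm_num
    rw [e, sub_pos]
    exact Real.log_lt_log (by norm_num) (by norm_num)
  set S : Set ℝ := {c : ℝ | ConvexOn ℝ (Ioi 0) (fun z => f z + c * Real.log z)} with hS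
  have e2 : (1 : ℝ) / 2 * 1 + 1 / 2 * 3 = 2 := by norm_num
  have hne : S.Nonempty := by
    set c1 : ℝ := -(h 1 + h 3 - 2 * h 2) / (2 * Real.log 2 - Real.log 3) - 1 with hc1
    refine ⟨c1, ?_⟩
    rcases dich hR c1 with h1 | h1
    · exact h1
    · exfalso
      have := h1.G.2 (show (1 : ℝ) ∈ Ici 1 by simp) (show (3 : ℝ) ∈ Ici 1 by simp)
        (by norm_num : (0 : ℝ) ≤ 1 / 2) (by norm_num : (0 : ℝ) ≤ 1 / 2) (by norm_num)
      simp only [smul_eq_mul, Real.log_one] at this
      rw [e2] at this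
      have h3 : (c1 + 1) * (2 * Real.log 2 - Real.log 3) = -(h 1 + h 3 - 2 * h 2) := by
        rw [hc1]; field_simp; ring
      nlinarith
  have hbd : BddAbove S := by
    refine ⟨(f 1 + f 3 - 2 * f 2) / (2 * Real.log 2 - Real.log 3), fun c hc => ?_⟩
    have hc' : ConvexOn ℝ (Ioi 0) (fun z => f z + c * Real.log z) := hc
    have := hc'.2 (show (1 : ℝ) ∈ Ioi 0 by simp) (show (3 : ℝ) ∈ Ioi 0 by simp)
      (by norm_num : (0 : ℝ) ≤ 1 / 2) (by norm_num : (0 : ℝ) ≤ 1 / 2) (by norm_num)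
    simp only [smul_eq_mul, Real.log_one] at this
    rw [e2] at this
    rw [le_div_iff₀ hl]
    linarith
  set c0 : ℝ := sSup S with hc0
  refine ⟨c0, ?_, ?_, ?_⟩
  · -- closure from below
    refine ⟨convex_Ioi 0, fun x hx y hy a b ha hb hab => ?_⟩
    have h1 : c0 ∈ closure S := csSup_mem_closure hne hbd
    have h2 : IsClosed {c : ℝ | (f (a • x + b • y) + c * Real.log (a • x + b • y))
        ≤ a • (f x + c * Real.log x) + b • (f y + c * Real.log y)} :=
      isClosed_le (by fun_prop) (by fun_prop)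
    exact closure_minimal (fun c hc => (show ConvexOn ℝ (Ioi 0) (fun z => f z + c * Real.log z)
      from hc).2 hx hy ha hb hab) h2 h1
  · intro F H κ hH hκ
    refine ⟨cv_half _ _, fun x hx y hy a b ha hb hab => ?_⟩
    have h1 : c0 ∈ closure (Ioi c0) := by rw [closure_Ioi]; exact mem_Ici.2 le_rfl
    have h2 : IsClosed {c : ℝ | (h (Kc (F + (a • x + b • y) • H))
        - c * Real.log (Dc F + κ * (a • x + b • y)))
        ≤ a • (h (Kc (F + x • H)) - c * Real.log (Dc F + κ * x))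
          + b • (h (Kc (F + y • H)) - c * Real.log (Dc F + κ * y))} :=
      isClosed_le (by fun_prop) (by fun_prop)
    refine closure_minimal (fun c hc => ?_) h2 h1
    rcases dich hR c with h3 | h3
    · exact absurd (le_csSup hbd h3) (not_le.2 hc)
    · exact (h3 F H κ hH hκ).2 hx hy ha hb hab
  · intro hfc
    refine le_csSup hbd ?_
    show ConvexOn ℝ (Ioi 0) (fun z => f z + 0 * Real.log z)
    simpa using hfc

theorem subg {g : ℝ → ℝ} {S : Set ℝ} (hg : ConvexOn ℝ S g) {t0 l u : ℝ} (hl : l ∈ S) (hlt : l < t0)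
    (hu : u ∈ S) (htu : t0 < u) : ∃ B, ∀ t ∈ S, g t0 + B * (t - t0) ≤ g t := by
  have hne : ((fun t => (g t - g t0) / (t - t0)) '' (S ∩ Ioi t0)).Nonempty :=
    ⟨_, u, ⟨hu, htu⟩, rfl⟩
  have lo : ∀ t ∈ S, t < t0 → ∀ y ∈ (fun t => (g t - g t0) / (t - t0)) '' (S ∩ Ioi t0),
      (g t0 - g t) / (t0 - t) ≤ y := by
    rintro t ht1 ht _ ⟨u, hu, rfl⟩
    exact hg.slope_mono_adjacent ht1 hu.1 ht hu.2
  have hbd : BddBelow ((fun t => (g t - g t0) / (t - t0)) '' (S ∩ Ioi t0)) := ⟨_, lo l hl hlt⟩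
  refine ⟨sInf ((fun t => (g t - g t0) / (t - t0)) '' (S ∩ Ioi t0)), fun t ht => ?_⟩
  rcases lt_trichotomy t t0 with h1 | h1 | h1
  · have := le_csInf hne (lo t ht h1)
    rw [div_le_iff₀ (by linarith)] at this
    linarith
  · subst h1; simp
  · have := csInf_le hbd ⟨t, ⟨ht, h1⟩, rfl⟩
    rw [le_div_iff₀ (by linarith)] at this
    linarith

/-- the case of a nonpositive critical constant -/
theorem caseA (hm : ∀ t1 t2, 1 ≤ t1 → t1 ≤ t2 → h t1 ≤ h t2) {c0 : ℝ}
    (hG : ConvexOn ℝ (Ici 1) (fun σ => h σ - c0 * Real.log σ)) (hc : c0 ≤ 0) {t0 : ℝ}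
    (h0 : 1 ≤ t0) : ∃ B, 0 ≤ B ∧ ∀ t, 1 ≤ t →
      h t0 + c0 * t0 - c0 * Real.log t0 + B * (t - t0) ≤ h t + c0 * t - c0 * Real.log t := by
  set c : ℝ := -c0 with hcd
  have hc0 : 0 ≤ c := by linarith
  set g : ℝ → ℝ := fun t => h t + c0 * t - c0 * Real.log t with hg
  have hcv : ConvexOn ℝ (Ici 1) g := by
    refine ⟨convex_Ici 1, fun x hx y hy a b ha hb hab => ?_⟩
    have := hG.2 hx hy ha hb hab
    simp only [smul_eq_mul] at this ⊢
    simp only [hg]
    linarith
  have hge : ∀ t, 1 ≤ t → g 1 ≤ g t := by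
    intro t ht
    by_contra hlt
    rw [not_le] at hlt
    have ht1 : 1 < t := lt_of_le_of_ne ht (fun e => by rw [e] at hlt; exact lt_irrefl _ hlt)
    set m : ℝ := (g 1 - g t) / (t - 1) with hmd
    have hm0 : 0 < m := div_pos (by linarith) (by linarith)
    set ε : ℝ := min ((t - 1) / 2) (m / (2 * (c + 1))) with hε
    have hε0 : 0 < ε := lt_min (by linarith) (by positivity)
    have hε1 : ε ≤ (t - 1) / 2 := min_le_left _ _
    have hε2 : ε * (2 * (c + 1)) ≤ m := by
      have := min_le_right ((t - 1) / 2) (m / (2 * (c + 1)))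
      rw [← hε, le_div_iff₀ (by positivity)] at this
      exact this
    have hk : g ((1 - ε / (t - 1)) • (1 : ℝ) + (ε / (t - 1)) • t) ≤
        (1 - ε / (t - 1)) • g 1 + (ε / (t - 1)) • g t :=
      hcv.2 (show (1 : ℝ) ∈ Ici 1 by simp) (mem_Ici.2 ht)
      (by rw [sub_nonneg, div_le_one (by linarith)]; linarith)
      (div_nonneg hε0.le (by linarith)) (by ring)
    simp only [smul_eq_mul] at hk
    have e1 : (1 - ε / (t - 1)) * 1 + ε / (t - 1) * t = 1 + ε := by
      have : t - 1 ≠ 0 := by linarith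
      field_simp; ring
    have e2 : (1 - ε / (t - 1)) * g 1 + ε / (t - 1) * g t = g 1 - m * ε := by
      have : t - 1 ≠ 0 := by linarith
      rw [hmd]; field_simp; ring
    rw [e1, e2] at hk
    have hmono := hm 1 (1 + ε) le_rfl (show (1 : ℝ) ≤ 1 + ε by linarith)
    have hlog : ε - ε ^ 2 ≤ Real.log (1 + ε) := by
      have h1 := Real.one_sub_inv_le_log_of_pos (show 0 < 1 + ε by linarith)
      have h2 : ε - ε ^ 2 ≤ 1 - (1 + ε)⁻¹ := by
        have : 1 - (1 + ε)⁻¹ = ε / (1 + ε) := by field_simp; ring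
        rw [this, le_div_iff₀ (by linarith)]
        nlinarith [pow_pos hε0 3]
      linarith
    have hgv : g (1 + ε) - g 1 = (h (1 + ε) - h 1) - c * (ε - Real.log (1 + ε)) := by
      simp only [hg, hcd, Real.log_one]; ring
    have h3 : c * (ε - Real.log (1 + ε)) ≤ c * ε ^ 2 :=
      mul_le_mul_of_nonneg_left (by linarith) hc0
    nlinarith [mul_pos hm0 hε0, mul_nonneg hc0 (sq_nonneg ε)]
  rcases eq_or_lt_of_le h0 with h1 | h1
  · refine ⟨0, le_rfl, fun t ht => ?_⟩
    have := hge t ht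
    rw [← h1, zero_mul, add_zero]
    exact this
  · obtain ⟨B, hB⟩ := subg hcv (mem_Ici.2 le_rfl) h1 (mem_Ici.2 (by linarith : (1 : ℝ) ≤ t0 + 1))
      (by linarith)
    refine ⟨B, ?_, hB⟩
    have h2 := hB 1 (mem_Ici.2 le_rfl)
    have h3 := hge t0 h0
    by_contra hneg
    rw [not_le] at hneg
    nlinarith

/-- the case of a positive critical constant -/
theorem caseB (hm : ∀ t1 t2, 1 ≤ t1 → t1 ≤ t2 → h t1 ≤ h t2) {c0 : ℝ}
    (hG : ConvexOn ℝ (Ici 1) (fun σ => h σ - c0 * Real.log σ)) (hc : 0 < c0) {t0 : ℝ}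
    (h0 : 1 ≤ t0) : ∃ B, 0 ≤ B + c0 / t0 ∧ ∀ t, 1 ≤ t →
      h t0 - c0 * Real.log t0 + B * (t - t0) ≤ h t - c0 * Real.log t := by
  rcases eq_or_lt_of_le h0 with h1 | h1
  · refine ⟨-c0, ?_, fun t ht => ?_⟩
    · rw [← h1, div_one]; linarith
    · rw [← h1, Real.log_one]
      have h2 := hm 1 t le_rfl ht
      have h3 := Real.log_le_sub_one_of_pos (show 0 < t by linarith)
      nlinarith
  · obtain ⟨B, hB⟩ := subg hG (mem_Ici.2 le_rfl) h1 (mem_Ici.2 (by linarith : (1 : ℝ) ≤ t0 + 1))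
      (by linarith)
    refine ⟨B, ?_, hB⟩
    by_contra hneg
    rw [not_le] at hneg
    have ht0 : 0 < t0 := by linarith
    set c := c0 with hcd
    have hBn : 0 < -B := by
      have : 0 < c / t0 := by positivity
      linarith
    have hlt : c / (-B) < t0 := by
      rw [div_lt_iff₀ hBn]
      have : c / t0 < -B := by linarith
      rw [div_lt_iff₀ ht0] at this
      linarith
    set m := max 1 (c / (-B)) with hmd
    have hmt : m < t0 := max_lt h1 hlt
    set t := (m + t0) / 2 with ht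
    have ht1 : m < t := by rw [ht]; linarith
    have ht2 : t < t0 := by rw [ht]; linarith
    have ht3 : 1 < t := (le_max_left _ _).trans_lt ht1
    have ht4 : c / (-B) < t := (le_max_right _ _).trans_lt ht1
    have h2 := hB t ht3.le
    have h3 := hm t t0 ht3.le ht2.le
    have h4 : Real.log t0 - Real.log t ≤ (t0 - t) / t := by
      rw [← Real.log_div ht0.ne' (by linarith)]
      have := Real.log_le_sub_one_of_pos (show 0 < t0 / t by positivity)
      have e : (t0 - t) / t = t0 / t - 1 := by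
        have : t ≠ 0 := by linarith
        field_simp
      rw [e]; exact this
    rw [div_lt_iff₀ hBn] at ht4
    have h5 : c * (Real.log t0 - Real.log t) ≤ c * ((t0 - t) / t) :=
      mul_le_mul_of_nonneg_left h4 hc.le
    have h6 : c * ((t0 - t) / t) < -B * (t0 - t) := by
      rw [← mul_div_assoc, div_lt_iff₀ (by linarith)]
      nlinarith
    linarith

end

end Pool.Agent.Q187.VI
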