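import Pool.Agent.Y273.VI.Main

/-! # The function `s / v + 2 log v` -/

set_option autoImplicit false

namespace Pool.Agent.Q187.VI

open MeasureTheory Set Filter Topology
open Pool.Agent.W360.MQ (cab)
open Pool.Agent.TH937.ZC (gf)
open Pool.Agent.W523.MQ.OM (T)
open Pool.Agent.Y273.VI

noncomputable def aM (v : ℝ) : ℝ := v⁻¹
noncomputable def bM (v : ℝ) : ℝ := 2 * Real.log v

theorem dA {v : ℝ} (hv : 0 < v) : HasDerivAt aM (-(v ^ 2)⁻¹) v := hasDerivAt_inv hv.ne'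

theorem dB {v : ℝ} (hv : 0 < v) : HasDerivAt bM (2 / v) v := by
  have : HasDerivAt (fun y => 2 * Real.log y) (2 * v⁻¹) v :=
    (Real.hasDerivAt_log hv.ne').const_mul 2
  exact this.congr_deriv (by rw [div_eq_mul_inv])

theorem cvM (s : ℝ) : ConvexOn ℝ (Ioc 0 s) (fun v => aM v * s + bM v) := by
  have hd : ∀ v, 0 < v → HasDerivAt (fun v => aM v * s + bM v) (-(v ^ 2)⁻¹ * s + 2 / v) v :=
    fun v hv => ((dA hv).mul_const s).add (dB hv)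
  have hd2 : ∀ v, 0 < v → HasDerivAt (fun v : ℝ => -(v ^ 2)⁻¹ * s + 2 / v)
      (2 * (s - v) / v ^ 3) v := by
    intro v hv
    have h1 : HasDerivAt (fun v : ℝ => -(v ^ 2)⁻¹) (-(-(2 * v) / (v ^ 2) ^ 2)) v := by
      exact (((hasDerivAt_pow 2 v).inv (by positivity)).neg).congr_deriv (by simp)
    have h2 : HasDerivAt (fun v : ℝ => 2 / v) (-2 / v ^ 2) v := by
      have := (hasDerivAt_inv hv.ne').const_mul 2
      simp only [div_eq_mul_inv]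
      refine this.congr_deriv ?_
      ring
    refine ((h1.mul_const s).add h2).congr_deriv ?_
    field_simp
    ring
  refine convexOn_of_hasDerivWithinAt2_nonneg (convex_Ioc 0 s)
    (f' := fun v => -(v ^ 2)⁻¹ * s + 2 / v) (f'' := fun v => 2 * (s - v) / v ^ 3) ?_ ?_ ?_ ?_
  · intro v hv
    exact (hd v hv.1).continuousAt.continuousWithinAt
  · intro v hv
    exact (hd v (interior_subset hv).1).hasDerivWithinAt
  · intro v hv
    exact (hd2 v (interior_subset hv).1).hasDerivWithinAt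
  · intro v hv
    have h := interior_subset hv
    have h1 : 0 < v := h.1
    have h2 : v ≤ s := h.2
    have : 0 ≤ s - v := by linarith
    positivity

theorem datM {ρ : ℝ} (hρ : 0 < ρ) : Dat aM bM ρ (-(ρ ^ 2)⁻¹) (2 / ρ) where
  cv := cvM
  ρ0 := hρ
  dA := dA hρ
  dB := dB hρ
  ab := by
    rw [abs_of_pos (by positivity)]
    unfold aM
    have : ρ⁻¹ - ρ * -(ρ ^ 2)⁻¹ = 2 / ρ := by field_simp; ring
    rw [this]

theorem magic {F₀ : Matrix (Fin 2) (Fin 2) ℝ} {Ω : Set (Fin 2 → ℝ)}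
    {ϑ : (Fin 2 → ℝ) → (Fin 2 → ℝ)} (h : Tm Ω ϑ) (hF : ‖(cab F₀).2‖ < ‖(cab F₀).1‖)
    (hpos : ∀ᵐ x ∂(volume.restrict Ω), ‖(T F₀ (fderiv ℝ ϑ x)).2‖ < ‖(T F₀ (fderiv ℝ ϑ x)).1‖)
    (hfin : ∫⁻ x in Ω, ENNReal.ofReal (gf aM bM (T F₀ (fderiv ℝ ϑ x))) ≠ ⊤) :
    IntegrableOn (fun x => gf aM bM (T F₀ (fderiv ℝ ϑ x))) Ω ∧
      gf aM bM (cab F₀) * (volume Ω).toReal ≤ ∫ x in Ω, gf aM bM (T F₀ (fderiv ℝ ϑ x)) := by
  have hm := meas_W cvM F₀ hpos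
  set v0 : ℝ := ‖(cab F₀).1‖ - ‖(cab F₀).2‖ with hv0
  set s0 : ℝ := ‖(cab F₀).1‖ + ‖(cab F₀).2‖ with hs0
  have hv0p : 0 < v0 := by rw [hv0]; linarith
  have key : ∀ ρ, 0 < ρ → ρ < v0 →
      IntegrableOn (fun x => gf aM bM (T F₀ (fderiv ℝ ϑ x))) Ω ∧
      ((aM ρ + -(ρ ^ 2)⁻¹ * (v0 - ρ)) * s0 + (bM ρ + 2 / ρ * (v0 - ρ))) * (volume Ω).toReal
        ≤ ∫ x in Ω, gf aM bM (T F₀ (fderiv ℝ ϑ x)) := fun ρ h0 h1 =>
    (datM h0).main h h1 hpos hfin hm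
  refine ⟨(key (v0 / 2) (by positivity) (by linarith)).1, ?_⟩
  have hev : ∀ᶠ ρ in 𝓝[<] v0,
      ((aM ρ + -(ρ ^ 2)⁻¹ * (v0 - ρ)) * s0 + (bM ρ + 2 / ρ * (v0 - ρ))) * (volume Ω).toReal
        ≤ ∫ x in Ω, gf aM bM (T F₀ (fderiv ℝ ϑ x)) := by
    filter_upwards [Ioo_mem_nhdsLT hv0p] with ρ hρ
    exact (key ρ hρ.1 hρ.2).2
  refine le_of_tendsto (x := 𝓝[<] v0) ?_ hev
  have hc : ContinuousAt (fun ρ : ℝ => ((aM ρ + -(ρ ^ 2)⁻¹ * (v0 - ρ)) * s0 +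
      (bM ρ + 2 / ρ * (v0 - ρ))) * (volume Ω).toReal) v0 := by
    have c1 : ContinuousAt aM v0 := (dA hv0p).continuousAt
    have c2 : ContinuousAt bM v0 := (dB hv0p).continuousAt
    have c3 : ContinuousAt (fun ρ : ℝ => (ρ ^ 2)⁻¹) v0 :=
      (continuousAt_id.pow 2).inv₀ (by simp; positivity)
    have c4 : ContinuousAt (fun ρ : ℝ => 2 / ρ) v0 :=
      continuousAt_const.div continuousAt_id hv0p.ne'
    have c5 : ContinuousAt (fun ρ : ℝ => v0 - ρ) v0 := by fun_prop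
    exact (((c1.add (c3.neg.mul c5)).mul continuousAt_const).add (c2.add (c4.mul c5))).mul
      continuousAt_const
  have := hc.tendsto.mono_left (nhdsWithin_le_nhds (s := Iio v0))
  refine this.trans_eq ?_
  simp only [sub_self, mul_zero, add_zero]
  rfl

end Pool.Agent.Q187.VI
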