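import Mathlib

/-! # One variable: convexity from second symmetric differences -/

set_option autoImplicit false

namespace Pool.Agent.Q187.VI

open Set Filter Topology

/-- a continuous function is convex if at each point its second symmetric differences are
asymptotically nonnegative along some sequence -/
theorem schwarz {φ : ℝ → ℝ} {J : Set ℝ} (hJc : Convex ℝ J) (hc : ContinuousOn φ J)
    (h2 : ∀ τ ∈ J, ∀ δ : ℝ, 0 < δ → ∃ᶠ ε in 𝓝[>] (0 : ℝ),
      -(δ * ε ^ 2) ≤ φ (τ + ε) + φ (τ - ε) - 2 * φ τ) : ConvexOn ℝ J φ := by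
  refine LinearOrder.convexOn_of_lt hJc ?_
  intro x hx y hy hxy a b ha hb hab
  by_contra hcon
  rw [not_le] at hcon
  simp only [smul_eq_mul] at hcon
  have hyx : 0 < y - x := sub_pos.2 hxy
  set z : ℝ := a * x + b * y with hz
  have hzx : x ≤ z := by
    have e : z = x + b * (y - x) := by
      have : a = 1 - b := by linarith
      rw [hz, this]; ring
    rw [e]; nlinarith [mul_pos hb hyx]
  have hzy : z ≤ y := by
    have e : z = y - a * (y - x) := by
      have : b = 1 - a := by linarith
      rw [hz, this]; ring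
    rw [e]; nlinarith [mul_pos ha hyx]
  set sl : ℝ := (φ y - φ x) / (y - x) with hsl
  set ell : ℝ → ℝ := fun τ => φ x + sl * (τ - x) with hell
  have hslm : sl * (y - x) = φ y - φ x := by rw [hsl]; field_simp
  have hez : ell z = a * φ x + b * φ y := by
    have e1 : z - x = b * (y - x) := by
      have : a = 1 - b := by linarith
      rw [hz, this]; ring
    have : ell z = φ x + b * (sl * (y - x)) := by
      simp only [hell]; rw [e1]; ring
    rw [this, hslm]
    have : a = 1 - b := by linarith
    rw [this]; ring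
  have hey : ell y = φ y := by simp only [hell]; linarith
  have hex : ell x = φ x := by simp only [hell]; ring
  set g0 : ℝ := φ z - ell z with hg0
  have hg0p : 0 < g0 := by rw [hg0, hez]; linarith
  set η : ℝ := g0 / (2 * (y - x) ^ 2) with hη
  have hη0 : 0 < η := by positivity
  set ψ : ℝ → ℝ := fun τ => φ τ - ell τ + η * ((τ - x) * (τ - y)) with hψ
  have hIJ : Icc x y ⊆ J := fun τ hτ => hJc.ordConnected.out hx hy hτ
  have hψc : ContinuousOn ψ (Icc x y) := by
    have h1 : ContinuousOn φ (Icc x y) := hc.mono hIJ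
    have h2 : Continuous ell := by simp only [hell]; fun_prop
    exact (h1.sub h2.continuousOn).add (by fun_prop)
  obtain ⟨t, ht, hmax⟩ := isCompact_Icc.exists_isMaxOn ⟨x, left_mem_Icc.2 hxy.le⟩ hψc
  have hψz : g0 / 2 ≤ ψ z := by
    have e1 : -(y - x) ^ 2 ≤ (z - x) * (z - y) := by nlinarith
    have e2 := mul_le_mul_of_nonneg_left e1 hη0.le
    have e3 : η * -(y - x) ^ 2 = -(g0 / 2) := by rw [hη]; field_simp
    have : ψ z = g0 + η * ((z - x) * (z - y)) := by simp only [hψ, hg0]
    rw [this]; linarith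
  have hψt : g0 / 2 ≤ ψ t := hψz.trans (hmax ⟨hzx, hzy⟩)
  have hψx : ψ x = 0 := by simp only [hψ]; rw [hex]; ring
  have hψy : ψ y = 0 := by simp only [hψ]; rw [hey]; ring
  have htx : x < t := by
    rcases eq_or_lt_of_le ht.1 with h | h
    · rw [← h, hψx] at hψt; linarith
    · exact h
  have hty : t < y := by
    rcases eq_or_lt_of_le ht.2 with h | h
    · rw [h, hψy] at hψt; linarith
    · exact h
  have hev := h2 t (hIJ ht) η hη0
  have h3 : ∀ᶠ ε in 𝓝[>] (0 : ℝ), ε ∈ Ioo 0 (min (t - x) (y - t)) :=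
    Ioo_mem_nhdsGT (lt_min (by linarith) (by linarith))
  obtain ⟨ε, hε1, hε2⟩ := (hev.and_eventually h3).exists
  have hε0 : 0 < ε := hε2.1
  have hεx : ε < t - x := hε2.2.trans_le (min_le_left _ _)
  have hεy : ε < y - t := hε2.2.trans_le (min_le_right _ _)
  have m1 : ψ (t + ε) ≤ ψ t := hmax ⟨by linarith, by linarith⟩
  have m2 : ψ (t - ε) ≤ ψ t := hmax ⟨by linarith, by linarith⟩
  simp only [hψ, hell] at m1 m2
  have h4 : 0 < η * ε ^ 2 := by positivity
  nlinarith

end Pool.Agent.Q187.VI
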