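import Pool.Agent.Q187.VI.One
import Pool.Agent.Q187.VI.Mag

/-! # Lines, the critical constant and supporting functions -/

set_option autoImplicit false

namespace Pool.Agent.Q187.VI

open Set Filter Topology
open Pool.Agent.Y273.VI (RCp)
open Pool.Agent.TH937.ZC (gf)

/-- the quotient of the singular values -/
noncomputable def Kc (F : ℂ × ℂ) : ℝ := (‖F.1‖ + ‖F.2‖) / (‖F.1‖ - ‖F.2‖)

/-- the determinant -/
noncomputable def Dc (F : ℂ × ℂ) : ℝ := ‖F.1‖ ^ 2 - ‖F.2‖ ^ 2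

/-- positive determinant -/
def Gl (F : ℂ × ℂ) : Prop := ‖F.2‖ < ‖F.1‖

theorem Gl_iff (F : ℂ × ℂ) : Gl F ↔ 0 < Dc F := by
  unfold Gl Dc
  rw [sub_pos, sq_lt_sq₀ (norm_nonneg _) (norm_nonneg _)]

theorem Kc_ge {F : ℂ × ℂ} (h : Gl F) : 1 ≤ Kc F := by
  have h' : ‖F.2‖ < ‖F.1‖ := h
  unfold Kc
  rw [le_div_iff₀ (by linarith)]
  linarith [norm_nonneg F.2]

theorem Dc_smul (r : ℝ) (F : ℂ × ℂ) : Dc (r • F) = r ^ 2 * Dc F := by
  unfold Dc
  simp only [Prod.smul_fst, Prod.smul_snd, norm_smul, Real.norm_eq_abs, mul_pow, sq_abs]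
  ring

theorem Kc_smul {r : ℝ} (hr : 0 < r) (F : ℂ × ℂ) : Kc (r • F) = Kc F := by
  unfold Kc
  simp only [Prod.smul_fst, Prod.smul_snd, norm_smul, Real.norm_eq_abs, abs_of_pos hr]
  rw [← mul_add, ← mul_sub, mul_div_mul_left _ _ hr.ne']

/-- the determinant is affine along rank-one lines -/
theorem Dc_line {F H : ℂ × ℂ} (hH : ‖H.1‖ = ‖H.2‖) :
    ∃ κ : ℝ, ∀ τ : ℝ, Dc (F + τ • H) = Dc F + κ * τ := by
  have e : ‖H.1‖ ^ 2 = ‖H.2‖ ^ 2 := by rw [hH]
  refine ⟨2 * (F.1.re * H.1.re + F.1.im * H.1.im) - 2 * (F.2.re * H.2.re + F.2.im * H.2.im),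
    fun τ => ?_⟩
  unfold Dc
  simp only [← Complex.normSq_eq_norm_sq, Complex.normSq_apply] at e ⊢
  simp only [Prod.fst_add, Prod.snd_add, Prod.smul_fst, Prod.smul_snd, Complex.add_re,
    Complex.add_im, Complex.real_smul, Complex.mul_re, Complex.mul_im, Complex.ofReal_re,
    Complex.ofReal_im, zero_mul, sub_zero, add_zero]
  linear_combination τ ^ 2 * e

theorem cv_half (D κ : ℝ) : Convex ℝ {τ : ℝ | 0 < D + κ * τ} := by
  intro x hx y hy a b ha hb hab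
  have hx' : 0 < D + κ * x := hx
  have hy' : 0 < D + κ * y := hy
  show 0 < D + κ * (a * x + b * y)
  have e : D + κ * (a * x + b * y) = a * (D + κ * x) + b * (D + κ * y) := by
    linear_combination (-D) * hab
  rw [e]
  rcases ha.eq_or_lt with h | h
  · have : b = 1 := by linarith
    rw [← h, this]; linarith
  · have := mul_pos h hx'
    have := mul_nonneg hb hy'.le
    linarith

section

variable {h f f' f'' : ℝ → ℝ}

/-- the energy -/
noncomputable def wv (h f : ℝ → ℝ) (F : ℂ × ℂ) : ℝ := h (Kc F) + f (Dc F)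

theorem line_conv (hR : RCp (wv h f)) {F H : ℂ × ℂ} (hH : ‖H.1‖ = ‖H.2‖) {κ : ℝ}
    (hκ : ∀ τ : ℝ, Dc (F + τ • H) = Dc F + κ * τ) {l : ℝ} (hl : 0 < l) :
    ConvexOn ℝ {τ : ℝ | 0 < Dc F + κ * τ}
      (fun τ => h (Kc (F + τ • H)) + f (l * (Dc F + κ * τ))) := by
  have hcv : Convex ℝ {τ : ℝ | 0 < Dc F + κ * τ} := cv_half _ _
  refine ⟨hcv, fun x hx y hy a b ha hb hab => ?_⟩
  have hx' : 0 < Dc F + κ * x := hx
  have hy' : 0 < Dc F + κ * y := hy
  have hz' : 0 < Dc F + κ * (a * x + b * y) := hcv hx hy ha hb hab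
  set μ : ℝ := Real.sqrt l with hμ
  have hμ0 : 0 < μ := Real.sqrt_pos.2 hl
  have hμ2 : μ ^ 2 = l := Real.sq_sqrt hl.le
  have val : ∀ τ, 0 < Dc F + κ * τ → wv h f (μ • (F + τ • H))
      = h (Kc (F + τ • H)) + f (l * (Dc F + κ * τ)) := by
    intro τ _
    unfold wv
    rw [Kc_smul hμ0, Dc_smul, hμ2, hκ]
  have gl : ∀ τ, 0 < Dc F + κ * τ → ‖(μ • (F + τ • H)).2‖ < ‖(μ • (F + τ • H)).1‖ := by
    intro τ hτ
    have h1 : Gl (μ • (F + τ • H)) := by
      rw [Gl_iff, Dc_smul, hκ]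
      positivity
    exact h1
  have e1 : μ • (F + x • H) + (μ * (y - x)) • H = μ • (F + y • H) := by
    rw [smul_add, smul_add, add_assoc, smul_smul, smul_smul, ← add_smul]
    congr 2
    ring
  have hb1 : b ≤ 1 := by linarith
  have e2 : μ • (F + x • H) + b • ((μ * (y - x)) • H) = μ • (F + (a * x + b * y) • H) := by
    have : a = 1 - b := by linarith
    rw [smul_add, smul_add, add_assoc, smul_smul, smul_smul, smul_smul, ← add_smul]
    congr 2
    rw [this]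
    ring
  have hr := hR (μ • (F + x • H)) ((μ * (y - x)) • H)
    (by simp only [Prod.smul_fst, Prod.smul_snd, norm_smul, hH]) (gl x hx')
    (by rw [e1]; exact gl y hy') b hb hb1
  rw [e1, e2, val _ hx', val _ hy', val _ hz'] at hr
  have : a = 1 - b := by linarith
  simp only [smul_eq_mul]
  rw [this] at hr ⊢
  exact hr

/-- `h` is nondecreasing -/
theorem h_mono (hR : RCp (wv h f)) {t1 t2 : ℝ} (h1 : 1 ≤ t1) (h12 : t1 ≤ t2) : h t1 ≤ h t2 := by
  have ht1 : 0 < t1 := by linarith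
  have ht2 : 0 < t2 := by linarith
  -- the points
  set P : ℝ → ℂ × ℂ := fun τ => ((1 : ℂ), (0 : ℂ)) + τ • (Complex.I, (1 : ℂ)) with hP
  have hD0 : Dc ((1 : ℂ), (0 : ℂ)) = 1 := by simp [Dc]
  have n1 : ∀ τ, ‖(P τ).1‖ ^ 2 = 1 + τ ^ 2 := by
    intro τ
    rw [← Complex.normSq_eq_norm_sq, Complex.normSq_apply]
    simp [hP]
    ring
  have n2 : ∀ τ, ‖(P τ).2‖ = |τ| := by
    intro τ
    simp [hP]
  have hDP : ∀ τ, Dc (P τ) = 1 := by
    intro τ
    unfold Dc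
    rw [n1, n2, sq_abs]
    ring
  have hKsym : ∀ τ, Kc (P (-τ)) = Kc (P τ) := by
    intro τ
    have : ‖(P (-τ)).1‖ = ‖(P τ).1‖ := by
      have e1 := n1 τ
      have e2 := n1 (-τ)
      have : ‖(P (-τ)).1‖ ^ 2 = ‖(P τ).1‖ ^ 2 := by rw [e1, e2]; ring
      exact (sq_eq_sq₀ (norm_nonneg _) (norm_nonneg _)).1 this
    unfold Kc
    rw [this, n2, n2, abs_neg]
  have hK : ∀ t, 1 ≤ t → Kc (P ((Real.sqrt t - 1 / Real.sqrt t) / 2)) = t := by
    intro t ht
    have ht0 : 0 < t := by linarith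
    set u := Real.sqrt t with hu
    have hu0 : 0 < u := Real.sqrt_pos.2 ht0
    have hu2 : u ^ 2 = t := Real.sq_sqrt ht0.le
    have hu1 : 1 ≤ u := by rw [hu]; exact Real.one_le_sqrt.2 ht
    set τ := (u - 1 / u) / 2 with hτ
    have hτ0 : 0 ≤ τ := by
      have : 1 / u ≤ 1 := by rw [div_le_one hu0]; exact hu1
      rw [hτ]; linarith
    have e1 : ‖(P τ).1‖ = (u + 1 / u) / 2 := by
      have h3 : ‖(P τ).1‖ ^ 2 = ((u + 1 / u) / 2) ^ 2 := by
        rw [n1, hτ]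
        field_simp
        ring
      exact (sq_eq_sq₀ (norm_nonneg _) (by positivity)).1 h3
    unfold Kc
    rw [e1, n2, abs_of_nonneg hτ0, hτ]
    have e2 : (u + 1 / u) / 2 + (u - 1 / u) / 2 = u := by ring
    have e3 : (u + 1 / u) / 2 - (u - 1 / u) / 2 = 1 / u := by ring
    rw [e2, e3, ← hu2]
    field_simp
  set τ1 : ℝ := (Real.sqrt t1 - 1 / Real.sqrt t1) / 2 with hτ1
  set τ2 : ℝ := (Real.sqrt t2 - 1 / Real.sqrt t2) / 2 with hτ2
  have hs1 : 1 ≤ Real.sqrt t1 := Real.one_le_sqrt.2 h1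
  have hs12 : Real.sqrt t1 ≤ Real.sqrt t2 := Real.sqrt_le_sqrt h12
  have h0 : 0 ≤ τ1 := by
    have : 1 / Real.sqrt t1 ≤ 1 := by rw [div_le_one (by linarith)]; exact hs1
    rw [hτ1]; linarith
  have hle : τ1 ≤ τ2 := by
    have : 1 / Real.sqrt t2 ≤ 1 / Real.sqrt t1 := one_div_le_one_div_of_le (by linarith) hs12
    rw [hτ1, hτ2]; linarith
  have hc := line_conv hR (F := ((1 : ℂ), (0 : ℂ))) (H := (Complex.I, (1 : ℂ)))
    (by simp) (κ := 0) (fun τ => by rw [hD0]; have := hDP τ; simp only [hP] at this; rw [this]; ring)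
    one_pos
  have hcP : ConvexOn ℝ univ (fun τ => h (Kc (P τ))) := by
    refine ⟨convex_univ, fun x _ y _ a b ha hb hab => ?_⟩
    have hx : x ∈ {τ : ℝ | 0 < Dc ((1 : ℂ), (0 : ℂ)) + 0 * τ} := by
      simp only [mem_setOf_eq, hD0]; norm_num
    have hy : y ∈ {τ : ℝ | 0 < Dc ((1 : ℂ), (0 : ℂ)) + 0 * τ} := by
      simp only [mem_setOf_eq, hD0]; norm_num
    have := hc.2 hx hy ha hb hab
    simp only [hD0, smul_eq_mul, zero_mul, add_zero, mul_one] at this ⊢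
    have hab' : a = 1 - b := by linarith
    simp only [hP] 
    rw [hab'] at this ⊢
    linarith
  rcases eq_or_lt_of_le (h0.trans hle) with h2 | h2
  · have : τ1 = τ2 := by linarith
    have e1 := hK t1 h1
    have e2 := hK t2 (h1.trans h12)
    rw [← hτ1] at e1
    rw [← hτ2, ← this, e1] at e2
    rw [e2]
  · set b : ℝ := (τ1 + τ2) / (2 * τ2) with hb
    have hb0 : 0 ≤ b := by positivity
    have hb1 : b ≤ 1 := by rw [hb, div_le_one (by positivity)]; linarith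
    have := hcP.2 (mem_univ (-τ2)) (mem_univ τ2) (sub_nonneg.2 hb1) hb0 (by ring)
    simp only [smul_eq_mul] at this
    have e : (1 - b) * -τ2 + b * τ2 = τ1 := by
      rw [hb]; field_simp; ring
    rw [e, hKsym, hτ1, hτ2, hK t1 h1, hK t2 (h1.trans h12)] at this
    linarith

end

end Pool.Agent.Q187.VI
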