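import Pool.Agent.Q187.VI.Crit

/-! # Supporting functions -/

set_option autoImplicit false

namespace Pool.Agent.Q187.VI

open Set Filter Topology
open Pool.Agent.Y273.VI (RCp)
open Pool.Agent.TH937.ZC (gf)

/-- support of `s / v` -/
theorem Ksup {s v s0 v0 : ℝ} (hs : 0 < s) (hv : 0 < v) (hv0 : 0 < v0) :
    s0 / v0 + 2 / v0 * (s - s0) - 1 / v0 ^ 2 * (s * v - s0 * v0) ≤ s / v := by
  have e : s / v - (s0 / v0 + 2 / v0 * (s - s0) - 1 / v0 ^ 2 * (s * v - s0 * v0))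
      = s / v * (1 - v / v0) ^ 2 := by
    field_simp; ring
  have : 0 ≤ s / v * (1 - v / v0) ^ 2 := by positivity
  linarith

/-- support of `s / v - 2 log v` -/
theorem Lsup {s v s0 v0 : ℝ} (hs : 0 < s) (hv : 0 < v) (hv0 : 0 < v0) :
    s0 / v0 - 2 * Real.log v0 + 2 / v0 * ((s - v) - (s0 - v0)) - 1 / v0 ^ 2 * (s * v - s0 * v0)
      ≤ s / v - 2 * Real.log v := by
  have e : s / v - (s0 / v0 + 2 / v0 * ((s - v) - (s0 - v0)) - 1 / v0 ^ 2 * (s * v - s0 * v0))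
      = s / v * (1 - v / v0) ^ 2 + 2 * (v / v0 - 1) := by
    field_simp; ring
  have h1 : 0 ≤ s / v * (1 - v / v0) ^ 2 := by positivity
  have h2 := Real.log_le_sub_one_of_pos (show 0 < v / v0 by positivity)
  rw [Real.log_div hv.ne' hv0.ne'] at h2
  linarith

theorem Rder {x0 y0 B c κ : ℝ} (hy : 0 ≤ y0) (hxy : y0 < x0) :
    HasDerivAt (fun m : ℝ =>
      B * ((Real.sqrt (x0 ^ 2 + (κ + y0) * (m - 2 * y0) + (m - 2 * y0) ^ 2 / 4) + m / 2) /
        (Real.sqrt (x0 ^ 2 + (κ + y0) * (m - 2 * y0) + (m - 2 * y0) ^ 2 / 4) - m / 2))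
      - 2 * c * Real.log
        (Real.sqrt (x0 ^ 2 + (κ + y0) * (m - 2 * y0) + (m - 2 * y0) ^ 2 / 4) - m / 2))
      (((B * (x0 + y0) / (x0 - y0) + c) / x0)
        + κ * ((B * (-(2 * y0)) / (x0 - y0) ^ 2 - 2 * c / (x0 - y0)) / (2 * x0))) (2 * y0) := by
  have hx0 : 0 < x0 := by linarith
  have hv0 : 0 < x0 - y0 := by linarith
  have hI : HasDerivAt (fun m : ℝ => x0 ^ 2 + (κ + y0) * (m - 2 * y0) + (m - 2 * y0) ^ 2 / 4)
      (κ + y0) (2 * y0) := by
    have h1 : HasDerivAt (fun m : ℝ => m - 2 * y0) 1 (2 * y0) := (hasDerivAt_id _).sub_const _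
    have h2 := ((h1.const_mul (κ + y0)).const_add (x0 ^ 2)).add ((h1.pow 2).div_const 4)
    refine h2.congr_deriv ?_
    simp
  have hval : x0 ^ 2 + (κ + y0) * (2 * y0 - 2 * y0) + (2 * y0 - 2 * y0) ^ 2 / 4 = x0 ^ 2 := by
    ring
  have hX := hI.sqrt (by rw [hval]; positivity)
  rw [hval, Real.sqrt_sq hx0.le] at hX
  have hm : HasDerivAt (fun m : ℝ => m / 2) (1 / 2) (2 * y0) := (hasDerivAt_id _).div_const 2
  have hS := hX.add hm
  have hV := hX.sub hm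
  have hV0 : Real.sqrt (x0 ^ 2 + (κ + y0) * (2 * y0 - 2 * y0) + (2 * y0 - 2 * y0) ^ 2 / 4)
      - 2 * y0 / 2 = x0 - y0 := by
    rw [hval, Real.sqrt_sq hx0.le]; ring
  have hS0 : Real.sqrt (x0 ^ 2 + (κ + y0) * (2 * y0 - 2 * y0) + (2 * y0 - 2 * y0) ^ 2 / 4)
      + 2 * y0 / 2 = x0 + y0 := by
    rw [hval, Real.sqrt_sq hx0.le]; ring
  have hq := (hS.div hV (by
    show Real.sqrt (x0 ^ 2 + (κ + y0) * (2 * y0 - 2 * y0) + (2 * y0 - 2 * y0) ^ 2 / 4)
      - 2 * y0 / 2 ≠ 0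
    rw [hV0]; exact hv0.ne')).const_mul B
  have hl := (hV.log (by
    show Real.sqrt (x0 ^ 2 + (κ + y0) * (2 * y0 - 2 * y0) + (2 * y0 - 2 * y0) ^ 2 / 4)
      - 2 * y0 / 2 ≠ 0
    rw [hV0]; exact hv0.ne')).const_mul (2 * c)
  refine (hq.sub hl).congr_deriv ?_
  simp only [Pi.add_apply, Pi.sub_apply]
  rw [hV0, hS0]
  have hx1 : x0 ≠ 0 := hx0.ne'
  have hv1 : x0 - y0 ≠ 0 := hv0.ne'
  field_simp
  ring

/-- the quadratic equation -/
theorem quad {P Q c : ℝ} (hP : 0 < P) (hQ : 0 ≤ Q) (hc : 0 < c) :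
    ∃ r : ℝ, 0 < r ∧ P * r ^ 2 - Q * r - 2 * c = 0 := by
  have hd : 0 < Q ^ 2 + 8 * P * c := by positivity
  refine ⟨(Q + Real.sqrt (Q ^ 2 + 8 * P * c)) / (2 * P), by positivity, ?_⟩
  have h1 : Real.sqrt (Q ^ 2 + 8 * P * c) ^ 2 = Q ^ 2 + 8 * P * c := Real.sq_sqrt hd.le
  generalize Real.sqrt (Q ^ 2 + 8 * P * c) = S at h1
  field_simp
  linear_combination h1

theorem fst_eq {F F' : ℂ × ℂ} (h2 : ‖F.2‖ = ‖F'.2‖) (hD : Dc F = Dc F') : Kc F = Kc F' := by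
  have h1 : ‖F.1‖ = ‖F'.1‖ := by
    unfold Dc at hD
    rw [h2] at hD
    exact (sq_eq_sq₀ (norm_nonneg _) (norm_nonneg _)).1 (by linarith)
  unfold Kc
  rw [h1, h2]

theorem caseB2 {h : ℝ → ℝ} {c B : ℝ} (hc : 0 < c)
    (hL : ∀ (F H : ℂ × ℂ) (κ : ℝ), ‖H.1‖ = ‖H.2‖ → (∀ τ : ℝ, Dc (F + τ • H) = Dc F + κ * τ) →
      ConvexOn ℝ {τ : ℝ | 0 < Dc F + κ * τ}
        (fun τ => h (Kc (F + τ • H)) - c * Real.log (Dc F + κ * τ)))
    {F0 : ℂ × ℂ} (h0 : Gl F0) (hB0 : 0 ≤ B + c / Kc F0) (hBc : B ≤ c)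
    (hB : ∀ t, 1 ≤ t → h (Kc F0) - c * Real.log (Kc F0) + B * (t - Kc F0)
      ≤ h t - c * Real.log t) :
    ∃ a k : ℝ, 0 ≤ a ∧ ∀ F, Gl F →
      h (Kc F0) - c * Real.log (Dc F0) + a * (‖F.2‖ - ‖F0.2‖) + k * (Dc F - Dc F0)
        ≤ h (Kc F) - c * Real.log (Dc F) := by
  set x0 : ℝ := ‖F0.1‖ with hx0d
  set y0 : ℝ := ‖F0.2‖ with hy0d
  have hy0 : 0 ≤ y0 := norm_nonneg _
  have hxy : y0 < x0 := h0
  have hx0 : 0 < x0 := by linarith
  have hv0 : 0 < x0 - y0 := by linarith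
  have hs0 : 0 < x0 + y0 := by linarith
  have hK0 : Kc F0 = (x0 + y0) / (x0 - y0) := rfl
  have hD0 : Dc F0 = x0 ^ 2 - y0 ^ 2 := rfl
  set a1 : ℝ := (B * (x0 + y0) / (x0 - y0) + c) / x0 with ha1
  set k : ℝ := (B * (-(2 * y0)) / (x0 - y0) ^ 2 - 2 * c / (x0 - y0)) / (2 * x0) with hk
  set h' : ℝ := B + c / Kc F0 with hh'
  have ha1' : a1 = h' * ((x0 + y0) / (x0 - y0)) / x0 := by
    rw [ha1, hh', hK0]
    have := hv0.ne'
    have := hs0.ne'
    field_simp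
  have ha10 : 0 ≤ a1 := by rw [ha1']; positivity
  have hkneg : -2 * k = (h' * (2 * y0) / (x0 - y0) ^ 2 + 2 * c * x0 / ((x0 + y0) * (x0 - y0)))
      / x0 := by
    rw [hk, hh', hK0]
    have := hv0.ne'
    have := hs0.ne'
    field_simp
    ring
  have hkpos : 0 < -2 * k := by
    rw [hkneg]
    have h1 : 0 ≤ h' * (2 * y0) / (x0 - y0) ^ 2 := by positivity
    have h2 : 0 < 2 * c * x0 / ((x0 + y0) * (x0 - y0)) := by positivity
    exact div_pos (by linarith) hx0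
  set κ : ℝ := a1 / (-2 * k) with hκ
  have hκ0 : 0 ≤ κ := by positivity
  have hκk : κ * (-2 * k) = a1 := by rw [hκ]; exact div_mul_cancel₀ _ hkpos.ne'
  have hκv : κ ≤ x0 - y0 := by
    rw [hκ, div_le_iff₀ hkpos, hk, ha1]
    have h1 : (B * (x0 + y0) / (x0 - y0) + c) / x0 -
        (x0 - y0) * (-2 * ((B * (-(2 * y0)) / (x0 - y0) ^ 2 - 2 * c / (x0 - y0)) / (2 * x0)))
        = (B - c) / x0 := by
      have := hv0.ne'
      field_simp
      ring
    have h2 : (B - c) / x0 ≤ 0 := div_nonpos_of_nonpos_of_nonneg (by linarith) hx0.le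
    linarith
  -- Euler's identity
  have hE : a1 * (2 * y0) + 2 * k * Dc F0 + 2 * c = 0 := by
    rw [hD0, ha1, hk]
    have := hv0.ne'
    have e : x0 ^ 2 - y0 ^ 2 = (x0 - y0) * (x0 + y0) := by ring
    rw [e]
    field_simp
    ring
  -- the unit vector
  set ρ : ℝ := (κ + y0) / x0 with hρ
  have hρ0 : 0 ≤ ρ := by positivity
  have hρ1 : ρ ≤ 1 := by rw [hρ, div_le_one hx0]; linarith
  have hρx : ρ * x0 = κ + y0 := by rw [hρ]; field_simp
  set e : ℂ := ⟨ρ, Real.sqrt (1 - ρ ^ 2)⟩ with he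
  have hen : Complex.normSq e = 1 := by
    rw [he, Complex.normSq_mk, Real.mul_self_sqrt (by nlinarith)]
    ring
  set Fb : ℂ × ℂ := ((x0 : ℂ) - (y0 : ℂ) * e, 0) with hFb
  set H : ℂ × ℂ := (((1 / 2 : ℝ) : ℂ) * e, ((1 / 2 : ℝ) : ℂ)) with hH
  have hen1 : ‖e‖ = 1 := by
    have : ‖e‖ ^ 2 = 1 := by rw [← Complex.normSq_eq_norm_sq]; exact hen
    exact (sq_eq_sq₀ (norm_nonneg _) zero_le_one).1 (by rw [this]; norm_num)
  have hHn : ‖H.1‖ = ‖H.2‖ := by
    rw [hH]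
    simp only [norm_mul, hen1, mul_one]
  have hl1 : ∀ m : ℝ, (Fb + m • H).1 = (x0 : ℂ) + (((m - 2 * y0) / 2 : ℝ) : ℂ) * e := by
    intro m
    simp only [hFb, hH, Prod.fst_add, Prod.smul_fst, Complex.real_smul]
    push_cast
    ring
  have hl2 : ∀ m : ℝ, (Fb + m • H).2 = ((m / 2 : ℝ) : ℂ) := by
    intro m
    simp only [hFb, hH, Prod.snd_add, Prod.smul_snd, Complex.real_smul]
    push_cast
    ring
  have hn1 : ∀ m : ℝ, ‖(Fb + m • H).1‖ ^ 2
      = x0 ^ 2 + (κ + y0) * (m - 2 * y0) + (m - 2 * y0) ^ 2 / 4 := by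
    intro m
    rw [hl1, ← Complex.normSq_eq_norm_sq, Complex.normSq_apply]
    have hen' : e.re * e.re + e.im * e.im = 1 := by rw [← Complex.normSq_apply]; exact hen
    have her : e.re = ρ := rfl
    simp only [Complex.add_re, Complex.add_im, Complex.mul_re, Complex.mul_im,
      Complex.ofReal_re, Complex.ofReal_im, zero_mul, sub_zero, add_zero, zero_add]
    have hρx' : e.re * x0 = κ + y0 := by rw [her]; exact hρx
    linear_combination ((m - 2 * y0) / 2) ^ 2 * hen' + (m - 2 * y0) * hρx'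
  have hn2 : ∀ m : ℝ, ‖(Fb + m • H).2‖ = |m / 2| := by
    intro m
    rw [hl2, Complex.norm_real, Real.norm_eq_abs]
  have hDm : ∀ m : ℝ, Dc (Fb + m • H) = Dc F0 + κ * (m - 2 * y0) := by
    intro m
    have : Dc (Fb + m • H) = ‖(Fb + m • H).1‖ ^ 2 - ‖(Fb + m • H).2‖ ^ 2 := rfl
    rw [this, hn1, hn2, sq_abs, hD0]
    ring
  have hDb : Dc Fb = Dc F0 - κ * (2 * y0) := by
    have := hDm 0
    rw [zero_smul, add_zero] at this
    rw [this]; ring
  have hDl : ∀ τ : ℝ, Dc (Fb + τ • H) = Dc Fb + κ * τ := by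
    intro τ
    rw [hDm, hDb]; ring
  have hconv := hL Fb H κ hHn hDl
  set φ : ℝ → ℝ := fun τ => h (Kc (Fb + τ • H)) - c * Real.log (Dc Fb + κ * τ) with hφ
  set X : ℝ → ℝ := fun m => Real.sqrt (x0 ^ 2 + (κ + y0) * (m - 2 * y0) + (m - 2 * y0) ^ 2 / 4)
    with hX
  set R : ℝ → ℝ := fun m => B * ((X m + m / 2) / (X m - m / 2)) - 2 * c * Real.log (X m - m / 2)
    with hR
  have hXn : ∀ m, ‖(Fb + m • H).1‖ = X m := by
    intro m
    simp only [hX]
    rw [← hn1, Real.sqrt_sq (norm_nonneg _)]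
  set g0 : ℝ := h (Kc F0) - c * Real.log (Kc F0) - B * Kc F0 with hg0
  -- the minorant
  have hge : ∀ m : ℝ, 0 ≤ m → 0 < Dc Fb + κ * m → g0 + R m ≤ φ m := by
    intro m hm hp
    have hgl : Gl (Fb + m • H) := by rw [Gl_iff, hDl]; exact hp
    have hlt : m / 2 < X m := by
      have h1 : ‖(Fb + m • H).2‖ < ‖(Fb + m • H).1‖ := hgl
      rw [hn2, hXn, abs_of_nonneg (by linarith)] at h1
      exact h1
    have hKm : Kc (Fb + m • H) = (X m + m / 2) / (X m - m / 2) := by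
      unfold Kc
      rw [hn2, hXn, abs_of_nonneg (by linarith)]
    have hDm' : Dc Fb + κ * m = (X m - m / 2) * (X m + m / 2) := by
      rw [← hDl]
      unfold Dc
      rw [hn2, hXn, abs_of_nonneg (by linarith)]
      ring
    have h1 := hB _ (Kc_ge hgl)
    have hl1 : Real.log (Dc Fb + κ * m) = Real.log (X m - m / 2) + Real.log (X m + m / 2) := by
      rw [hDm', Real.log_mul (by linarith) (by linarith)]
    have hl2 : Real.log (Kc (Fb + m • H)) = Real.log (X m + m / 2) - Real.log (X m - m / 2) := by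
      rw [hKm, Real.log_div (by linarith) (by linarith)]
    simp only [hφ, hR, hg0]
    rw [hl1]
    rw [hl2, hKm] at h1
    rw [hKm]
    linarith
  have hX0 : X (2 * y0) = x0 := by
    simp only [hX]
    have : x0 ^ 2 + (κ + y0) * (2 * y0 - 2 * y0) + (2 * y0 - 2 * y0) ^ 2 / 4 = x0 ^ 2 := by ring
    rw [this, Real.sqrt_sq hx0.le]
  have hD0p : 0 < Dc F0 := (Gl_iff F0).1 h0
  have hD0l : Real.log (Dc F0) = Real.log (x0 - y0) + Real.log (x0 + y0) := by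
    rw [hD0, show x0 ^ 2 - y0 ^ 2 = (x0 - y0) * (x0 + y0) by ring,
      Real.log_mul hv0.ne' hs0.ne']
  have hK0l : Real.log (Kc F0) = Real.log (x0 + y0) - Real.log (x0 - y0) := by
    rw [hK0, Real.log_div hs0.ne' hv0.ne']
  have heq0 : g0 + R (2 * y0) = h (Kc F0) - c * Real.log (Dc F0) := by
    simp only [hR, hg0]
    rw [hX0, hD0l, hK0l]
    have e1 : 2 * y0 / 2 = y0 := by ring
    rw [e1, hK0]
    ring
  have hφ0 : φ (2 * y0) = h (Kc F0) - c * Real.log (Dc F0) := by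
    have h1 : Dc Fb + κ * (2 * y0) = Dc F0 := by rw [hDb]; ring
    have h2 : Kc (Fb + (2 * y0) • H) = Kc F0 := by
      refine fst_eq ?_ ?_
      · rw [hn2, show 2 * y0 / 2 = y0 by ring, abs_of_nonneg hy0]
      · rw [hDl, h1]
    show h (Kc (Fb + (2 * y0) • H)) - c * Real.log (Dc Fb + κ * (2 * y0)) = _
    rw [h1, h2]
  have hder : HasDerivAt R (a1 / 2) (2 * y0) := by
    have h1 := Rder (B := B) (c := c) (κ := κ) hy0 hxy
    refine h1.congr_deriv ?_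
    rw [← ha1, ← hk]
    linarith
  -- the slope inequality
  have hsl : ∀ m' : ℝ, 0 ≤ m' → 0 < Dc Fb + κ * m' →
      φ (2 * y0) + a1 / 2 * (m' - 2 * y0) ≤ φ m' := by
    intro m' hm' hp'
    have h1 : HasDerivAt (fun ε : ℝ => R (2 * y0 + ε * (m' - 2 * y0)))
        (a1 / 2 * (m' - 2 * y0)) 0 := by
      have h2 : HasDerivAt (fun ε : ℝ => 2 * y0 + ε * (m' - 2 * y0)) (m' - 2 * y0) 0 := by
        have := ((hasDerivAt_id (0 : ℝ)).mul_const (m' - 2 * y0)).const_add (2 * y0)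
        exact this.congr_deriv (one_mul _)
      have h3 : HasDerivAt R (a1 / 2) (2 * y0 + 0 * (m' - 2 * y0)) := by
        rw [zero_mul, add_zero]; exact hder
      exact h3.comp 0 h2
    have h2 := h1.tendsto_slope_zero_right
    have h3 : a1 / 2 * (m' - 2 * y0) ≤ φ m' - φ (2 * y0) := by
      refine le_of_tendsto h2 ?_
      have hin : Ioo (0 : ℝ) 1 ∈ 𝓝[>] (0 : ℝ) := Ioo_mem_nhdsGT one_pos
      filter_upwards [hin] with ε hε
      have hD1 : (2 * y0) ∈ {τ : ℝ | 0 < Dc Fb + κ * τ} := by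
        show 0 < Dc Fb + κ * (2 * y0)
        rw [hDb]; linarith
      have hD2 : m' ∈ {τ : ℝ | 0 < Dc Fb + κ * τ} := hp'
      have hz := hconv.2 hD1 hD2 (show 0 ≤ 1 - ε by linarith [hε.2]) hε.1.le (by ring)
      have hzin := hconv.1 hD1 hD2 (show 0 ≤ 1 - ε by linarith [hε.2]) hε.1.le (by ring)
      simp only [smul_eq_mul] at hz hzin
      have e1 : (1 - ε) * (2 * y0) + ε * m' = 2 * y0 + ε * (m' - 2 * y0) := by ring
      rw [e1] at hz hzin
      have hmn : 0 ≤ 2 * y0 + ε * (m' - 2 * y0) := by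
        rw [← e1]
        have := hε.1
        have := hε.2
        have : 0 ≤ 1 - ε := by linarith
        positivity
      have h5 := hge _ hmn hzin
      rw [zero_add, zero_mul, add_zero, smul_eq_mul]
      rw [inv_mul_le_iff₀ hε.1]
      have h6 : φ (2 * y0) = g0 + R (2 * y0) := by rw [hφ0, heq0]
      have hz' : φ (2 * y0 + ε * (m' - 2 * y0)) ≤ (1 - ε) * φ (2 * y0) + ε * φ m' := hz
      linarith
    linarith
  refine ⟨2 * a1, k, by positivity, fun F hF => ?_⟩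
  have hFD : 0 < Dc F := (Gl_iff F).1 hF
  obtain ⟨r, hr, hq⟩ := quad (P := -2 * k * Dc F) (Q := a1 * (2 * ‖F.2‖)) (mul_pos hkpos hFD)
    (by positivity) hc
  set m' : ℝ := r * (2 * ‖F.2‖) with hm'
  have hm'0 : 0 ≤ m' := by positivity
  have hDr : Dc (r • F) = r ^ 2 * Dc F := Dc_smul r F
  have hline : Dc Fb + κ * m' = r ^ 2 * Dc F := by
    have h1 : (-2 * k) * (r ^ 2 * Dc F - Dc F0) = a1 * (m' - 2 * y0) := by
      rw [hm']
      linear_combination hq + hE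
    have h2 : (-2 * k) * (r ^ 2 * Dc F - Dc F0) = (-2 * k) * (κ * (m' - 2 * y0)) := by
      rw [h1, ← hκk]; ring
    have h3 := mul_left_cancel₀ hkpos.ne' h2
    rw [hDb]
    linarith
  have hpos : 0 < Dc Fb + κ * m' := by rw [hline]; positivity
  have h1 := hsl m' hm'0 hpos
  have hKe : Kc (Fb + m' • H) = Kc F := by
    rw [← Kc_smul hr F]
    refine fst_eq ?_ ?_
    · rw [hn2, abs_of_nonneg (by linarith), hm', Prod.smul_snd, norm_smul, Real.norm_eq_abs,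
        abs_of_pos hr]
      ring
    · rw [hDl, hline, hDr]
  have hφm : φ m' = h (Kc F) - c * (2 * Real.log r + Real.log (Dc F)) := by
    show h (Kc (Fb + m' • H)) - c * Real.log (Dc Fb + κ * m') = _
    rw [hKe, hline, Real.log_mul (by positivity) hFD.ne', Real.log_pow]
    norm_num
  rw [hφm, hφ0] at h1
  -- the final inequality
  have hmF : ‖F.2‖ = m' / (2 * r) := by rw [hm']; field_simp
  have hkF : k * Dc F = (-c - a1 * m' / 2) / r ^ 2 := by
    rw [eq_div_iff (by positivity), hm']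
    linear_combination (-1 / 2) * hq
  have hkF0 : k * Dc F0 = -c - a1 * y0 := by linear_combination (1 / 2) * hE
  have hlog := Real.log_le_sub_one_of_pos (show 0 < 1 / r ^ 2 by positivity)
  rw [one_div, Real.log_inv, Real.log_pow] at hlog
  have hsq : 0 ≤ a1 * m' / 2 * (1 - 1 / r) ^ 2 := by positivity
  have hsq' : a1 * m' / 2 * (1 - 1 / r) ^ 2 = a1 * m' / 2 - a1 * m' / r + a1 * m' / 2 / r ^ 2 := by
    field_simp
    ring
  have hcl : c * (-(2 * Real.log r)) ≤ c * ((r ^ 2)⁻¹ - 1) := by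
    refine mul_le_mul_of_nonneg_left ?_ hc.le
    push_cast at hlog
    linarith
  have e5 : 2 * a1 * (‖F.2‖ - y0) = a1 * m' / r - 2 * a1 * y0 := by
    rw [hmF]; field_simp
  have e6 : k * (Dc F - Dc F0) = (-c - a1 * m' / 2) / r ^ 2 + c + a1 * y0 := by
    rw [mul_sub, hkF, hkF0]; ring
  rw [e5, e6]
  have e7 : (-c - a1 * m' / 2) / r ^ 2 = -(c * (r ^ 2)⁻¹) - a1 * m' / 2 / r ^ 2 := by
    field_simp
  rw [e7]
  rw [hsq'] at hsq
  linarith

end Pool.Agent.Q187.VI
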