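import Pool.Agent.Q187.VI.Supp

/-! # The supporting function at a point -/

set_option autoImplicit false

namespace Pool.Agent.Q187.VI

open Set Filter Topology
open Pool.Agent.Y273.VI (RCp tan_le)
open Pool.Agent.TH937.ZC (gf)

section

variable {h f : ℝ → ℝ}

theorem Dc_sv (F : ℂ × ℂ) : Dc F = (‖F.1‖ + ‖F.2‖) * (‖F.1‖ - ‖F.2‖) := by
  unfold Dc; ring

theorem gf_sv (F : ℂ × ℂ) :
    gf aM bM F = Kc F + 2 * Real.log (‖F.1‖ - ‖F.2‖) := by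
  unfold gf aM bM Kc
  ring

/-- the supporting function -/
theorem support (hR : RCp (wv h f)) {F0 : ℂ × ℂ} (h0 : Gl F0) :
    ∃ c a b k : ℝ, 0 ≤ c ∧ 0 ≤ a ∧ 0 ≤ b ∧ (ConvexOn ℝ (Ioi 0) f → c = 0) ∧ ∀ F, Gl F →
      wv h f F0 + c * (gf aM bM F - gf aM bM F0) + a * (‖F.2‖ - ‖F0.2‖)
        + b * (‖F.1‖ - ‖F0.1‖) + k * (Dc F - Dc F0) ≤ wv h f F := by
  have hv0 : 0 < ‖F0.1‖ - ‖F0.2‖ := sub_pos.2 h0
  have hs0 : 0 < ‖F0.1‖ + ‖F0.2‖ := by linarith [norm_nonneg F0.2]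
  have hD0 : 0 < Dc F0 := (Gl_iff F0).1 h0
  obtain ⟨c0, hcf, hLC, hcc0⟩ := crit hR
  have hm : ∀ t1 t2, 1 ≤ t1 → t1 ≤ t2 → h t1 ≤ h t2 := fun t1 t2 => h_mono hR
  obtain ⟨m0, hm0⟩ := subg hcf (l := Dc F0 / 2) (u := Dc F0 * 2) (t0 := Dc F0)
    (mem_Ioi.2 (by linarith)) (by linarith) (mem_Ioi.2 (by linarith)) (by linarith)
  suffices hs : ∃ c a b k : ℝ, 0 ≤ c ∧ 0 ≤ a ∧ 0 ≤ b ∧ (ConvexOn ℝ (Ioi 0) f → c = 0) ∧ ∀ F, Gl F →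
      h (Kc F0) - c0 * Real.log (Dc F0) + c * (gf aM bM F - gf aM bM F0)
        + a * (‖F.2‖ - ‖F0.2‖) + b * (‖F.1‖ - ‖F0.1‖) + k * (Dc F - Dc F0)
        ≤ h (Kc F) - c0 * Real.log (Dc F) by
    obtain ⟨c, a, b, k, hc, ha, hb, hcc, hS⟩ := hs
    refine ⟨c, a, b, k + m0, hc, ha, hb, hcc, fun F hF => ?_⟩
    have h1 := hS F hF
    have h2 := hm0 _ (mem_Ioi.2 ((Gl_iff F).1 hF))
    unfold wv
    linarith
  rcases le_or_gt (c0) 0 with hc | hc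
  · obtain ⟨B, hB0, hB⟩ := caseA hm hLC.G hc (Kc_ge h0)
    refine ⟨-c0, B * (2 / (‖F0.1‖ - ‖F0.2‖)), B * (2 / (‖F0.1‖ - ‖F0.2‖)),
      -(B * (1 / (‖F0.1‖ - ‖F0.2‖) ^ 2)), by linarith, by positivity, by positivity,
      fun h1 => by linarith [hcc0 h1], fun F hF => ?_⟩
    have hv : 0 < ‖F.1‖ - ‖F.2‖ := sub_pos.2 hF
    have hs : 0 < ‖F.1‖ + ‖F.2‖ := by linarith [norm_nonneg F.2]
    have h1 := hB _ (Kc_ge hF)
    have h2 := Ksup (s0 := ‖F0.1‖ + ‖F0.2‖) hs hv hv0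
    have h3 := mul_le_mul_of_nonneg_left h2 hB0
    have e1 : Real.log (Dc F) = Real.log (‖F.1‖ + ‖F.2‖) + Real.log (‖F.1‖ - ‖F.2‖) := by
      rw [Dc_sv, Real.log_mul hs.ne' hv.ne']
    have e2 : Real.log (Kc F) = Real.log (‖F.1‖ + ‖F.2‖) - Real.log (‖F.1‖ - ‖F.2‖) := by
      unfold Kc
      rw [Real.log_div hs.ne' hv.ne']
    have e3 : Real.log (Dc F0) = Real.log (‖F0.1‖ + ‖F0.2‖) + Real.log (‖F0.1‖ - ‖F0.2‖) := by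
      rw [Dc_sv, Real.log_mul hs0.ne' hv0.ne']
    have e4 : Real.log (Kc F0) = Real.log (‖F0.1‖ + ‖F0.2‖) - Real.log (‖F0.1‖ - ‖F0.2‖) := by
      unfold Kc
      rw [Real.log_div hs0.ne' hv0.ne']
    have e5 : (‖F.1‖ + ‖F.2‖) / (‖F.1‖ - ‖F.2‖) = Kc F := rfl
    have e6 : (‖F0.1‖ + ‖F0.2‖) / (‖F0.1‖ - ‖F0.2‖) = Kc F0 := rfl
    rw [e5, e6, ← Dc_sv, ← Dc_sv] at h3
    rw [gf_sv, gf_sv, e1, e3]
    rw [e2, e4] at h1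
    linarith
  · obtain ⟨B, hB0, hB⟩ := caseB hm hLC.G hc (Kc_ge h0)
    rcases le_or_gt B (c0) with hBc | hBc
    · obtain ⟨a, k, ha, hk⟩ := caseB2 hc hLC h0 hB0 hBc hB
      refine ⟨0, a, 0, k, le_rfl, ha, le_rfl, fun _ => rfl, fun F hF => ?_⟩
      have := hk F hF
      linarith
    · refine ⟨0, (B - c0) * (2 / (‖F0.1‖ - ‖F0.2‖)) + c0 * (4 / (‖F0.1‖ - ‖F0.2‖)),
        (B - c0) * (2 / (‖F0.1‖ - ‖F0.2‖)), -(B * (1 / (‖F0.1‖ - ‖F0.2‖) ^ 2)), le_rfl,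
        ?_, ?_, fun _ => rfl, fun F hF => ?_⟩
      · have : 0 ≤ B - c0 := by linarith
        positivity
      · have : 0 ≤ B - c0 := by linarith
        positivity
      · have hv : 0 < ‖F.1‖ - ‖F.2‖ := sub_pos.2 hF
        have hs : 0 < ‖F.1‖ + ‖F.2‖ := by linarith [norm_nonneg F.2]
        have h1 := hB _ (Kc_ge hF)
        have h3 := mul_le_mul_of_nonneg_left (Ksup (s0 := ‖F0.1‖ + ‖F0.2‖) hs hv hv0)
          (show 0 ≤ B - c0 by linarith)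
        have h4 := mul_le_mul_of_nonneg_left (Lsup (s0 := ‖F0.1‖ + ‖F0.2‖) hs hv hv0) hc.le
        have e1 : Real.log (Dc F) = Real.log (‖F.1‖ + ‖F.2‖) + Real.log (‖F.1‖ - ‖F.2‖) := by
          rw [Dc_sv, Real.log_mul hs.ne' hv.ne']
        have e2 : Real.log (Kc F) = Real.log (‖F.1‖ + ‖F.2‖) - Real.log (‖F.1‖ - ‖F.2‖) := by
          unfold Kc
          rw [Real.log_div hs.ne' hv.ne']
        have e3 : Real.log (Dc F0) = Real.log (‖F0.1‖ + ‖F0.2‖) + Real.log (‖F0.1‖ - ‖F0.2‖) := by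
          rw [Dc_sv, Real.log_mul hs0.ne' hv0.ne']
        have e4 : Real.log (Kc F0) = Real.log (‖F0.1‖ + ‖F0.2‖) - Real.log (‖F0.1‖ - ‖F0.2‖) := by
          unfold Kc
          rw [Real.log_div hs0.ne' hv0.ne']
        have e5 : (‖F.1‖ + ‖F.2‖) / (‖F.1‖ - ‖F.2‖) = Kc F := rfl
        have e6 : (‖F0.1‖ + ‖F0.2‖) / (‖F0.1‖ - ‖F0.2‖) = Kc F0 := rfl
        rw [e5, e6, ← Dc_sv, ← Dc_sv] at h3 h4
        rw [e1, e3]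
        rw [e2, e4] at h1
        have e7 : c0 * (4 / (‖F0.1‖ - ‖F0.2‖)) * (‖F.2‖ - ‖F0.2‖)
            = c0 * (2 / (‖F0.1‖ - ‖F0.2‖) * (‖F.1‖ + ‖F.2‖ - (‖F.1‖ - ‖F.2‖)
              - (‖F0.1‖ + ‖F0.2‖ - (‖F0.1‖ - ‖F0.2‖)))) := by ring
        linarith

end

end Pool.Agent.Q187.VI
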